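import Pool.Agent.Lib.MP_a05470_co.T5.Defs

/-!
# Bit arithmetic for the checker
-/

set_option autoImplicit false

namespace Pool.Agent.Lib.MP_a05470_co.T5

theorem bt_eq (m i : Nat) : bt m i = m.testBit i := by
  rw [Nat.testBit_eq_decide_div_mod_eq]
  have h1 : Nat.land (Nat.shiftRight m i) 1 = m / 2 ^ i % 2 := by
    have h2 : Nat.land (Nat.shiftRight m i) 1 = (m >>> i) &&& 1 := rfl
    rw [h2, Nat.and_one_is_mod, Nat.shiftRight_eq_div_pow]
  unfold bt
  rw [h1]
  rcases Nat.mod_two_eq_zero_or_one (m / 2 ^ i) with h | h <;> rw [h] <;> rfl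

theorem beq_iff {a b : Nat} : Nat.beq a b = true ↔ a = b := by
  constructor
  · exact Nat.eq_of_beq_eq_true
  · rintro rfl
    exact Nat.beq_refl a

theorem sb_iff {a b : Nat} : sb a b = true ↔ ∀ i, a.testBit i = true → b.testBit i = true := by
  unfold sb
  rw [beq_iff]
  have h0 : Nat.land a b = a &&& b := rfl
  rw [h0]
  constructor
  · intro h i hi
    rw [← h, Nat.testBit_and] at hi
    simp only [Bool.and_eq_true] at hi
    exact hi.2
  · intro h
    apply Nat.eq_of_testBit_eq
    intro i
    rw [Nat.testBit_and]
    cases hi : a.testBit i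
    · rfl
    · rw [h i hi]
      rfl

theorem dj_iff {a b : Nat} : dj a b = true ↔ ∀ i, a.testBit i = true → b.testBit i = false := by
  unfold dj
  rw [beq_iff]
  have h0 : Nat.land a b = a &&& b := rfl
  rw [h0]
  constructor
  · intro h i hi
    have h1 : (a &&& b).testBit i = false := by rw [h]; exact Nat.zero_testBit i
    rw [Nat.testBit_and, hi] at h1
    simpa using h1
  · intro h
    apply Nat.eq_of_testBit_eq
    intro i
    rw [Nat.testBit_and, Nat.zero_testBit]
    cases hi : a.testBit i
    · rfl
    · rw [h i hi]
      rfl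

theorem mn_testBit (a b i : Nat) : (mn a b).testBit i = (a.testBit i && !b.testBit i) := by
  have h0 : mn a b = a ^^^ (a &&& b) := rfl
  rw [h0, Nat.testBit_xor, Nat.testBit_and]
  cases a.testBit i <;> cases b.testBit i <;> rfl

theorem land_testBit (a b i : Nat) : (Nat.land a b).testBit i = (a.testBit i && b.testBit i) :=
  Nat.testBit_and a b i

theorem lor_testBit (a b i : Nat) : (Nat.lor a b).testBit i = (a.testBit i || b.testBit i) :=
  Nat.testBit_or a b i

theorem xor_testBit (a b i : Nat) : (Nat.xor a b).testBit i = (a.testBit i ^^ b.testBit i) :=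
  Nat.testBit_xor a b i

theorem shl_testBit (x i j : Nat) :
    (Nat.shiftLeft x i).testBit j = (decide (i ≤ j) && x.testBit (j - i)) :=
  Nat.testBit_shiftLeft x

theorem shr_testBit (x i j : Nat) : (Nat.shiftRight x i).testBit j = x.testBit (i + j) :=
  Nat.testBit_shiftRight x

theorem pow_testBit (k i : Nat) : (Nat.pow 2 k).testBit i = decide (k = i) :=
  Nat.testBit_two_pow

theorem ob_iff {a : Nat} (h : ob a = true) : ∀ i j, a.testBit i = true → a.testBit j = true →
    i = j := by
  unfold ob at h
  rw [Bool.or_eq_true, beq_iff, beq_iff] at h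
  intro i j hi hj
  rcases h with h | h
  · rw [h, Nat.zero_testBit] at hi
    exact absurd hi (by simp)
  · rw [h, pow_testBit] at hi hj
    simp only [decide_eq_true_eq] at hi hj
    omega

/-- the sum of `2 ^ (s i)` for `i < m` -/
def rep (s : Nat) : Nat → Nat
  | 0 => 0
  | m + 1 => 1 + 2 ^ s * rep s m

theorem mul_rep_testBit {s a : Nat} (hs : 0 < s) (ha : a < 2 ^ s) (m q : Nat) :
    (a * rep s m).testBit q = (decide (q / s < m) && a.testBit (q % s)) := by
  induction m generalizing q with
  | zero => simp [rep]
  | succ m ih =>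
    have h1 : a * rep s (m + 1) = 2 ^ s * (a * rep s m) + a := by
      rw [rep]
      ring
    rw [h1, Nat.testBit_two_pow_mul_add _ ha]
    by_cases hq : q < s
    · rw [if_pos hq, Nat.div_eq_of_lt hq, Nat.mod_eq_of_lt hq]
      simp
    · rw [if_neg hq, ih]
      push Not at hq
      have h2 : q / s = (q - s) / s + 1 := by
        rw [← Nat.add_div_right _ hs, Nat.sub_add_cancel hq]
      have h3 : q % s = (q - s) % s := by
        rw [← Nat.mod_eq_sub_mod hq]
      rw [h2, h3]
      congr 1
      simp

theorem m64_eq : m64 = rep 64 20 := by decide +kernel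

theorem m63_eq : m63 = rep 63 20 := by decide +kernel

theorem f64_eq : f64 = 2 ^ 64 - 1 := by decide +kernel

theorem f32_eq : f32 = 2 ^ 32 - 1 := by decide +kernel

theorem m64_testBit (q : Nat) : m64.testBit q = (decide (q / 64 < 20) && decide (q % 64 = 0)) := by
  have h := mul_rep_testBit (s := 64) (a := 1) (by norm_num) (by norm_num) 20 q
  rw [one_mul, ← m64_eq] at h
  rw [h]
  congr 1
  have : Nat.testBit 1 (q % 64) = (Nat.pow 2 0).testBit (q % 64) := rfl
  rw [this, pow_testBit]
  exact decide_eq_decide.2 eq_comm

theorem sp_testBit {m : Nat} (hm : m < 2 ^ 63) (q : Nat) :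
    (sp m).testBit q = (decide (q / 64 < 20) && decide (q % 64 = 0) && m.testBit (q / 64)) := by
  unfold sp
  rw [land_testBit, m64_testBit]
  have h0 : Nat.mul m m63 = m * rep 63 20 := by rw [m63_eq]; rfl
  rw [h0, mul_rep_testBit (by norm_num) hm]
  by_cases h : q / 64 < 20 ∧ q % 64 = 0
  · obtain ⟨h1, h2⟩ := h
    have h3 : q / 63 = q / 64 := by omega
    have h4 : q % 63 = q / 64 := by omega
    rw [h3, h4]
    simp [h1, h2]
  · have h5 : (decide (q / 64 < 20) && decide (q % 64 = 0)) = false := by
      simpa using h
    rw [h5]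
    simp

/-- spread the lowest `k` bits -/
def spr : Nat → Nat → Nat
  | 0, _ => 0
  | k + 1, m => m % 2 + 2 ^ 64 * spr k (m / 2)

theorem mod_two_testBit (m : Nat) (i : Nat) :
    (m % 2).testBit i = (decide (i = 0) && m.testBit 0) := by
  have h := Nat.testBit_mod_two_pow m 1 i
  rw [pow_one] at h
  rw [h]
  by_cases hi : i = 0
  · subst hi
    simp
  · have : ¬ i < 1 := by omega
    simp [hi, this]

theorem mul_spr_testBit {a : Nat} (ha : a < 2 ^ 64) (k m q : Nat) :
    (spr k m * a).testBit q = (decide (q / 64 < k) && m.testBit (q / 64) && a.testBit (q % 64)) := by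
  induction k generalizing m q with
  | zero => simp [spr]
  | succ k ih =>
    have h1 : spr (k + 1) m * a = 2 ^ 64 * (spr k (m / 2) * a) + m % 2 * a := by
      rw [spr]
      ring
    have h2 : m % 2 * a < 2 ^ 64 := by
      rcases Nat.mod_two_eq_zero_or_one m with h | h <;> rw [h] <;> omega
    rw [h1, Nat.testBit_two_pow_mul_add _ h2]
    by_cases hq : q < 64
    · rw [if_pos hq, Nat.div_eq_of_lt hq, Nat.mod_eq_of_lt hq]
      have h3 : m.testBit 0 = decide (m % 2 = 1) := Nat.testBit_zero m
      rw [h3]
      rcases Nat.mod_two_eq_zero_or_one m with h | h <;> rw [h] <;> simp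
    · rw [if_neg hq, ih]
      push Not at hq
      have h2 : q / 64 = (q - 64) / 64 + 1 := by omega
      have h3 : q % 64 = (q - 64) % 64 := by omega
      rw [h2, h3, Nat.testBit_add_one]
      congr 2
      simp

theorem sp_eq {m : Nat} (hm : m < 2 ^ 63) : sp m = spr 20 m := by
  apply Nat.eq_of_testBit_eq
  intro q
  rw [sp_testBit hm]
  have h := mul_spr_testBit (a := 1) (by norm_num) 20 m q
  rw [mul_one] at h
  rw [h]
  have h1 : Nat.testBit 1 (q % 64) = (Nat.pow 2 0).testBit (q % 64) := rfl
  rw [h1, pow_testBit]
  have h2 : decide (0 = q % 64) = decide (q % 64 = 0) := decide_eq_decide.2 eq_comm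
  rw [h2]
  cases decide (q / 64 < 20) <;> cases decide (q % 64 = 0) <;> cases m.testBit (q / 64) <;> rfl

theorem mul_sp_testBit {a m : Nat} (ha : a < 2 ^ 64) (hm : m < 2 ^ 63) {i c : Nat} (hi : i < 20)
    (hc : c < 64) : (Nat.mul (sp m) a).testBit (64 * i + c) = (m.testBit i && a.testBit c) := by
  have h0 : Nat.mul (sp m) a = spr 20 m * a := by rw [sp_eq hm]; rfl
  rw [h0, mul_spr_testBit ha]
  have h1 : (64 * i + c) / 64 = i := by omega
  have h2 : (64 * i + c) % 64 = c := by omega
  rw [h1, h2]
  simp [hi]

theorem mul_m64_testBit {a : Nat} (ha : a < 2 ^ 64) {i c : Nat} (hi : i < 20) (hc : c < 64) :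
    (Nat.mul a m64).testBit (64 * i + c) = a.testBit c := by
  have h0 : Nat.mul a m64 = a * rep 64 20 := by rw [m64_eq]; rfl
  rw [h0, mul_rep_testBit (by norm_num) ha]
  have h1 : (64 * i + c) / 64 = i := by omega
  have h2 : (64 * i + c) % 64 = c := by omega
  rw [h1, h2]
  simp [hi]

/-- the number of the lowest `k` bits that are set -/
theorem spr_mod (k m : Nat) : spr k m ≡ ((Finset.range k).filter (fun i => m.testBit i = true)).card
    [MOD f64] := by
  induction k generalizing m with
  | zero => simp [spr, Nat.ModEq]
  | succ k ih =>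
    have h1 : ((Finset.range (k + 1)).filter (fun i => m.testBit i = true)).card =
        m % 2 + ((Finset.range k).filter (fun i => (m / 2).testBit i = true)).card := by
      rw [Finset.card_filter, Finset.card_filter, Finset.sum_range_succ']
      have h3 : m.testBit 0 = decide (m % 2 = 1) := Nat.testBit_zero m
      have h4 : (if m.testBit 0 = true then 1 else 0) = m % 2 := by
        rw [h3]
        rcases Nat.mod_two_eq_zero_or_one m with h | h <;> rw [h] <;> simp
      rw [h4, Nat.add_comm]
      congr 1
      apply Finset.sum_congr rfl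
      intro i _
      rw [Nat.testBit_add_one]
    rw [h1, spr]
    apply Nat.ModEq.add_left
    have h4 : 2 ^ 64 * spr k (m / 2) ≡ 1 * spr k (m / 2) [MOD f64] := by
      apply Nat.ModEq.mul_right
      rw [f64_eq]
      decide
    rw [one_mul] at h4
    exact h4.trans (ih (m / 2))

theorem sp_mod {m : Nat} (hm : m < 2 ^ 20) :
    Nat.mod (sp m) f64 = ((Finset.range 20).filter (fun i => m.testBit i = true)).card := by
  have h1 := spr_mod 20 m
  rw [← sp_eq (lt_trans hm (by norm_num))] at h1
  have h2 : Nat.mod (sp m) f64 = sp m % f64 := rfl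
  rw [h2]
  have h3 : ((Finset.range 20).filter (fun i => m.testBit i = true)).card < f64 := by
    have h4 := Finset.card_filter_le (Finset.range 20) (fun i => m.testBit i = true)
    rw [Finset.card_range] at h4
    have h5 : 20 < f64 := by rw [f64_eq]; norm_num
    omega
  rw [h1, Nat.mod_eq_of_lt h3]

theorem cb_testBit (m q : Nat) :
    (cb m).testBit q = (m.testBit q || (decide (32 ≤ q) && m.testBit (q - 32))) := by
  unfold cb
  rw [lor_testBit, shl_testBit]

theorem cb_lt {m : Nat} (hm : m < 2 ^ 32) : cb m < 2 ^ 64 := by
  apply Nat.lt_pow_two_of_testBit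
  intro i hi
  rw [cb_testBit, Nat.testBit_lt_two_pow (lt_of_lt_of_le hm (Nat.pow_le_pow_right (by norm_num)
    (by omega))), Nat.testBit_lt_two_pow (lt_of_lt_of_le hm (Nat.pow_le_pow_right (by norm_num)
    (by omega)))]
  simp

/-- both halves of `cb m` are `m` -/
theorem cb_half {m : Nat} (hm : m < 2 ^ 32) {h j : Nat} (hj : j < 32) (hh : h < 2) :
    (cb m).testBit (32 * h + j) = m.testBit j := by
  rw [cb_testBit]
  have h1 : h = 0 ∨ h = 1 := by omega
  rcases h1 with rfl | rfl
  · have : ¬ 32 ≤ j := by omega
    simp [this]
  · have h2 : m.testBit (32 * 1 + j) = false :=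
      Nat.testBit_lt_two_pow (lt_of_lt_of_le hm (Nat.pow_le_pow_right (by norm_num) (by omega)))
    rw [h2]
    simp

theorem ds_testBit {d m : Nat} (hd : ∀ q, m.testBit q = true → m.testBit (q + d) = false)
    (x q : Nat) : (ds d m x).testBit q = if m.testBit q = true then x.testBit (q + d)
      else if d ≤ q ∧ m.testBit (q - d) = true then x.testBit (q - d) else x.testBit q := by
  have h0 : ds d m x = Nat.xor (Nat.xor x (Nat.land (Nat.xor (Nat.shiftRight x d) x) m))
    (Nat.shiftLeft (Nat.land (Nat.xor (Nat.shiftRight x d) x) m) d) := rfl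
  rw [h0, xor_testBit, xor_testBit, shl_testBit, land_testBit, xor_testBit, shr_testBit,
    land_testBit, xor_testBit, shr_testBit]
  by_cases h1 : m.testBit q = true
  · rw [if_pos h1, h1]
    have h2 : (decide (d ≤ q) && ((x.testBit (d + (q - d)) ^^ x.testBit (q - d)) &&
        m.testBit (q - d))) = false := by
      by_cases h3 : d ≤ q
      · have h4 : m.testBit (q - d) = false := by
          by_contra hc
          have h5 := hd (q - d) (by simpa using hc)
          rw [Nat.sub_add_cancel h3, h1] at h5
          exact absurd h5 (by simp)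
        rw [h4]
        simp
      · simp [h3]
    rw [h2, Nat.add_comm d q]
    cases x.testBit q <;> cases x.testBit (q + d) <;> rfl
  · rw [if_neg h1]
    have h1' : m.testBit q = false := by simpa using h1
    rw [h1']
    by_cases h3 : d ≤ q ∧ m.testBit (q - d) = true
    · rw [if_pos h3, h3.2]
      have h4 : d + (q - d) = q := by omega
      rw [h4]
      have : decide (d ≤ q) = true := by simpa using h3.1
      rw [this]
      cases x.testBit q <;> cases x.testBit (q - d) <;> cases x.testBit (d + q) <;> rfl
    · rw [if_neg h3]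
      have h5 : (decide (d ≤ q) && ((x.testBit (d + (q - d)) ^^ x.testBit (q - d)) &&
        m.testBit (q - d))) = false := by
        by_cases h6 : d ≤ q
        · have h7 : m.testBit (q - d) = false := by
            by_contra hc
            exact h3 ⟨h6, by simpa using hc⟩
          rw [h7]
          simp
        · simp [h6]
      rw [h5]
      simp

/-- the permutation of the vertices belonging to a swap -/
def ta (d m i : Nat) : Nat :=
  if m.testBit i = true then i + d else if d ≤ i ∧ m.testBit (i - d) = true then i - d else i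

/-- the condition on a swap -/
structure Sw (d m : Nat) (n : Nat) : Prop where
  dj : ∀ q, m.testBit q = true → m.testBit (q + d) = false
  lt : ∀ q, m.testBit q = true → q + d < n

theorem Sw.bit {d m n : Nat} (h : Sw d m n) (hn : n ≤ 20) : m < 2 ^ 20 := by
  apply Nat.lt_pow_two_of_testBit
  intro i hi
  by_contra hc
  have := h.lt i (by simpa using hc)
  omega

theorem Sw.ta_lt {d m n i : Nat} (h : Sw d m n) (hi : i < n) : ta d m i < n := by
  unfold ta
  split_ifs with h1 h2
  · exact h.lt i h1
  · omega
  · exact hi

theorem Sw.ta_ta {d m n : Nat} (h : Sw d m n) (i : Nat) : ta d m (ta d m i) = i := by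
  by_cases h1 : m.testBit i = true
  · have e1 : ta d m i = i + d := by unfold ta; rw [if_pos h1]
    rw [e1]
    unfold ta
    have h2 := h.dj i h1
    have h3 : d ≤ i + d ∧ m.testBit (i + d - d) = true := ⟨by omega, by rw [Nat.add_sub_cancel]; exact h1⟩
    rw [if_neg (by rw [h2]; simp), if_pos h3, Nat.add_sub_cancel]
  · by_cases h2 : d ≤ i ∧ m.testBit (i - d) = true
    · have e1 : ta d m i = i - d := by unfold ta; rw [if_neg h1, if_pos h2]
      rw [e1]
      unfold ta
      rw [if_pos h2.2]
      omega
    · have e1 : ta d m i = i := by unfold ta; rw [if_neg h1, if_neg h2]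
      rw [e1, e1]

theorem Sw.ta_inj {d m n : Nat} (h : Sw d m n) {i j : Nat} (hij : ta d m i = ta d m j) : i = j := by
  rw [← h.ta_ta i, hij, h.ta_ta j]

/-- the effect of a swap on one vertex -/
theorem Sw.vs_testBit {d m n : Nat} (h : Sw d m n) (hn : n ≤ 20) (x : Nat) {a j : Nat}
    (hj : j < 32) (ha : a < 2) :
    (vs d m x).testBit (32 * a + j) = x.testBit (32 * a + ta d m j) := by
  have hm20 := h.bit hn
  have hm : m < 2 ^ 32 := lt_trans hm20 (by norm_num)
  have hb : ∀ q, m.testBit q = true → q + d < 20 := fun q hq => lt_of_lt_of_le (h.lt q hq) hn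
  have hdj : ∀ q, (cb m).testBit q = true → (cb m).testBit (q + d) = false := by
    intro q hq
    rw [cb_testBit, Bool.or_eq_true, Bool.and_eq_true, decide_eq_true_eq] at hq
    rw [cb_testBit, Bool.or_eq_false_iff]
    rcases hq with hq | ⟨hq, hq2⟩
    · refine ⟨h.dj q hq, ?_⟩
      have := hb q hq
      have : ¬ 32 ≤ q + d := by omega
      simp [this]
    · have h2 := hb _ hq2
      constructor
      · by_contra hc
        have := hb _ (by simpa using hc)
        omega
      · have h3 := h.dj _ hq2
        have h4 : q - 32 + d = q + d - 32 := by omega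
        rw [h4] at h3
        rw [h3]
        simp
  unfold vs
  rw [ds_testBit hdj, cb_half hm hj ha]
  unfold ta
  by_cases h1 : m.testBit j = true
  · rw [if_pos h1, if_pos h1]
    congr 1
    omega
  · rw [if_neg h1, if_neg h1]
    by_cases h2 : d ≤ j ∧ m.testBit (j - d) = true
    · have e1 : 32 * a + j - d = 32 * a + (j - d) := by omega
      have e2 : (cb m).testBit (32 * a + j - d) = true := by
        rw [e1, cb_half hm (by omega) ha]
        exact h2.2
      rw [if_pos ⟨by omega, e2⟩, if_pos h2, e1]
    · rw [if_neg h2, if_neg]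
      rintro ⟨h3, h4⟩
      rcases Nat.lt_or_ge j d with h5 | h5
      · -- wraps around
        have ha1 : a = 1 := by omega
        subst ha1
        rw [cb_testBit, Bool.or_eq_true, Bool.and_eq_true, decide_eq_true_eq] at h4
        rcases h4 with h4 | ⟨h4, _⟩
        · have := hb _ h4
          omega
        · omega
      · apply h2
        refine ⟨h5, ?_⟩
        have e1 : 32 * a + j - d = 32 * a + (j - d) := by omega
        rw [e1, cb_half hm (by omega) ha] at h4
        exact h4

theorem f64_testBit {c : Nat} (hc : c < 64) : f64.testBit c = true := by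
  rw [f64_eq, Nat.testBit_two_pow_sub_one]
  simpa using hc

/-- the effect of a swap on a configuration -/
theorem Sw.VS_testBit {d m n : Nat} (h : Sw d m n) (hn : n ≤ 20) (G : Nat) {a i j : Nat}
    (hi : i < 20) (hj : j < 32) (ha : a < 2) :
    (VS d m G).testBit (64 * i + (32 * a + j)) =
      G.testBit (64 * ta d m i + (32 * a + ta d m j)) := by
  have hm20 := h.bit hn
  have hm : m < 2 ^ 32 := lt_trans hm20 (by norm_num)
  have hm63 : m < 2 ^ 63 := lt_trans hm20 (by norm_num)
  have hb : ∀ q, m.testBit q = true → q + d < 20 := fun q hq => lt_of_lt_of_le (h.lt q hq) hn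
  have hf : f64 < 2 ^ 64 := by rw [f64_eq]; norm_num
  have hta : ∀ i, i < 20 → ta d m i < 20 := by
    intro i hi
    unfold ta
    split_ifs with h1 h2
    · exact hb i h1
    · omega
    · exact hi
  -- columns
  have hcol : ∀ i c, i < 20 → c < 64 →
      (ds d (Nat.mul (cb m) m64) G).testBit (64 * i + c) = (if (cb m).testBit c = true then
        G.testBit (64 * i + (c + d)) else if d ≤ c ∧ (cb m).testBit (c - d) = true then
        G.testBit (64 * i + (c - d)) else G.testBit (64 * i + c)) := by
    intro i c hi hc
    have hcb : ∀ c, (cb m).testBit c = true → c + d < 64 ∧ c + d ≠ 31 ∧ (cb m).testBit (c + d) = false := by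
      intro c hc
      rw [cb_testBit, Bool.or_eq_true, Bool.and_eq_true, decide_eq_true_eq] at hc
      rcases hc with hc | ⟨hc, hc2⟩
      · have h1 := hb c hc
        refine ⟨by omega, by omega, ?_⟩
        rw [cb_testBit, h.dj c hc]
        have : ¬ 32 ≤ c + d := by omega
        simp [this]
      · have h1 := hb _ hc2
        refine ⟨by omega, by omega, ?_⟩
        rw [cb_testBit, Bool.or_eq_false_iff]
        constructor
        · by_contra hcc
          have := hb _ (by simpa using hcc)
          omega
        · have h3 := h.dj _ hc2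
          have h4 : c - 32 + d = c + d - 32 := by omega
          rw [h4] at h3
          rw [h3]
          simp
    have hcbl : ∀ c, (cb m).testBit c = true → c < 52 := by
      intro c hc
      rw [cb_testBit, Bool.or_eq_true, Bool.and_eq_true, decide_eq_true_eq] at hc
      rcases hc with hc | ⟨hc, hc2⟩
      · have h1 := hb c hc
        omega
      · have h1 := hb _ hc2
        omega
    have hM : ∀ q, (Nat.mul (cb m) m64).testBit q = (decide (q / 64 < 20) && (cb m).testBit (q % 64)) := by
      intro q
      have h0 : Nat.mul (cb m) m64 = cb m * rep 64 20 := by rw [m64_eq]; rfl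
      rw [h0, mul_rep_testBit (by norm_num) (cb_lt hm)]
    rw [ds_testBit]
    · rw [hM, hM]
      have e1 : (64 * i + c) / 64 = i := by omega
      have e2 : (64 * i + c) % 64 = c := by omega
      rw [e1, e2]
      have e3 : (decide (i < 20) && (cb m).testBit c) = (cb m).testBit c := by simp [hi]
      rw [e3]
      by_cases h1 : (cb m).testBit c = true
      · rw [if_pos h1, if_pos h1]
        congr 1
        omega
      · rw [if_neg h1, if_neg h1]
        by_cases h2 : d ≤ c ∧ (cb m).testBit (c - d) = true
        · have e4 : (64 * i + c - d) / 64 = i := by omega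
          have e5 : (64 * i + c - d) % 64 = c - d := by omega
          rw [e4, e5, if_pos h2, if_pos ⟨by omega, by simp [hi, h2.2]⟩]
          congr 1
          omega
        · rw [if_neg h2, if_neg]
          rintro ⟨h3, h4⟩
          rw [Bool.and_eq_true, decide_eq_true_eq] at h4
          rcases Nat.lt_or_ge c d with h5 | h5
          · have e5 : (64 * i + c - d) % 64 = 64 + c - d ∨ d > 64 := by omega
            have hd : d < 20 := by
              obtain ⟨q, hq⟩ : ∃ q, (cb m).testBit q = true := ⟨_, h4.2⟩
              rw [cb_testBit, Bool.or_eq_true, Bool.and_eq_true] at hq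
              rcases hq with hq | ⟨_, hq⟩
              · have := hb _ hq
                omega
              · have := hb _ hq
                omega
            rcases e5 with e5 | e5
            · rw [e5] at h4
              have h6 := hcb _ h4.2
              have h7 : 64 + c - d + d = 64 + c := by omega
              rw [h7] at h6
              omega
            · omega
          · apply h2
            refine ⟨h5, ?_⟩
            have e5 : (64 * i + c - d) % 64 = c - d := by omega
            rw [e5] at h4
            exact h4.2
    · intro q hq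
      rw [hM, Bool.and_eq_true, decide_eq_true_eq] at hq
      rw [hM]
      have h1 := hcb _ hq.2
      have h2 : (q + d) % 64 = q % 64 + d := by omega
      rw [h2, h1.2.2]
      simp
  unfold VS
  rw [ds_testBit]
  · have e0 : 64 * i + (32 * a + j) < 1280 := by omega
    have hc : 32 * a + j < 64 := by omega
    rw [mul_sp_testBit hf hm63 hi hc, f64_testBit hc, Bool.and_true]
    have hcb := cb_half hm hj ha
    -- the columns for a row `i'`
    have hfin : ∀ i', i' < 20 → (ds d (Nat.mul (cb m) m64) G).testBit (64 * i' + (32 * a + j)) =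
        G.testBit (64 * i' + (32 * a + ta d m j)) := by
      intro i' hi'
      rw [hcol i' _ hi' hc, hcb]
      unfold ta
      by_cases h1 : m.testBit j = true
      · rw [if_pos h1, if_pos h1]
        congr 1
        omega
      · rw [if_neg h1, if_neg h1]
        by_cases h2 : d ≤ j ∧ m.testBit (j - d) = true
        · have e1 : 32 * a + j - d = 32 * a + (j - d) := by omega
          have e2 : (cb m).testBit (32 * a + j - d) = true := by
            rw [e1, cb_half hm (by omega) ha]
            exact h2.2
          rw [if_pos ⟨by omega, e2⟩, if_pos h2, e1]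
        · rw [if_neg h2, if_neg]
          rintro ⟨h3, h4⟩
          rcases Nat.lt_or_ge j d with h5 | h5
          · have ha1 : a = 1 := by omega
            subst ha1
            rw [cb_testBit, Bool.or_eq_true, Bool.and_eq_true, decide_eq_true_eq] at h4
            rcases h4 with h4 | ⟨h4, _⟩
            · have := hb _ h4
              omega
            · omega
          · apply h2
            refine ⟨h5, ?_⟩
            have e1 : 32 * a + j - d = 32 * a + (j - d) := by omega
            rw [e1, cb_half hm (by omega) ha] at h4
            exact h4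
    have hmul : Nat.mul 64 d = 64 * d := rfl
    rw [hmul]
    by_cases h1 : m.testBit i = true
    · rw [if_pos h1]
      have e1 : 64 * i + (32 * a + j) + 64 * d = 64 * (i + d) + (32 * a + j) := by ring
      rw [e1, hfin _ (hb i h1)]
      have e2 : ta d m i = i + d := by
        unfold ta
        rw [if_pos h1]
      rw [e2]
    · rw [if_neg h1]
      by_cases h2 : d ≤ i ∧ m.testBit (i - d) = true
      · have e1 : 64 * i + (32 * a + j) - 64 * d = 64 * (i - d) + (32 * a + j) := by omega
        have e3 : (Nat.mul (sp m) f64).testBit (64 * i + (32 * a + j) - 64 * d) = true := by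
          rw [e1, mul_sp_testBit hf hm63 (by omega) hc, f64_testBit hc, h2.2]
          rfl
        rw [if_pos ⟨by omega, e3⟩, e1, hfin _ (by omega)]
        have e2 : ta d m i = i - d := by
          unfold ta
          rw [if_neg h1, if_pos h2]
        rw [e2]
      · have e2 : ta d m i = i := by
          unfold ta
          rw [if_neg h1, if_neg h2]
        rw [if_neg, hfin _ hi, e2]
        rintro ⟨h3, h4⟩
        apply h2
        have h5 : d ≤ i := by omega
        refine ⟨h5, ?_⟩
        have e1 : 64 * i + (32 * a + j) - 64 * d = 64 * (i - d) + (32 * a + j) := by omega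
        rw [e1, mul_sp_testBit hf hm63 (by omega) hc, f64_testBit hc, Bool.and_true] at h4
        exact h4
  · intro q hq
    have hmul : Nat.mul 64 d = 64 * d := rfl
    rw [hmul]
    have h0 : Nat.mul (sp m) f64 = spr 20 m * f64 := by rw [sp_eq hm63]; rfl
    rw [h0, mul_spr_testBit hf] at hq ⊢
    rw [Bool.and_eq_true, Bool.and_eq_true] at hq
    have e1 : (q + 64 * d) / 64 = q / 64 + d := by omega
    rw [e1, h.dj _ hq.1.2]
    simp

end Pool.Agent.Lib.MP_a05470_co.T5
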