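import Pool.Agent.Lib.MP_a05470_co.Frontier
import Pool.Agent.Lib.MP_a05470_co.T5.Bits

/-!
# Copies of configurations in a pair of graphs
-/

set_option autoImplicit false

namespace Pool.Agent.Lib.MP_a05470_co.T5

open Finset Classical Pool.Agent.Lib.MP_a05470_co.Frontier

variable {W : Type}

/-- there are no two cliques with these cardinalities -/
def NoZ (Gr Gb : SimpleGraph W) (f : ℕ × ℕ × ℕ) : Prop :=
  ∀ L K : Finset W, ZS Gr Gb L K → f.1 ≤ L.card → f.2.1 ≤ K.card → M Gb L K ≤ f.2.2 → False

/-- a copy of a configuration -/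
def Has (Gr Gb : SimpleGraph W) (n G : ℕ) (φ : ℕ → W) : Prop :=
  ∀ i < n, ∀ j < n, i ≠ j → (G.testBit (64 * i + j) = true → Gr.Adj (φ i) (φ j)) ∧
    (G.testBit (64 * i + 32 + j) = true → Gb.Adj (φ i) (φ j))

/-- the vertex `u` has the adjacencies `P` to the vertices of a configuration -/
def Att (Gr Gb : SimpleGraph W) (n : ℕ) (φ : ℕ → W) (u : W) (P : ℕ) : Prop :=
  ∀ j < n, (P.testBit j = true → Gr.Adj u (φ j)) ∧ (P.testBit (32 + j) = true → Gb.Adj u (φ j))

/-- the number of pairs that are not blue is symmetric -/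
theorem M_comm (Gb : SimpleGraph W) (L K : Finset W) : M Gb L K = M Gb K L := by
  unfold M
  refine Finset.card_bij' (fun p _ => (p.2, p.1)) (fun p _ => (p.2, p.1)) ?_ ?_ ?_ ?_
  · intro p hp
    rw [Finset.mem_filter, Finset.mem_product] at hp ⊢
    exact ⟨⟨hp.1.2, hp.1.1⟩, fun e => hp.2 e.symm⟩
  · intro p hp
    rw [Finset.mem_filter, Finset.mem_product] at hp ⊢
    exact ⟨⟨hp.1.2, hp.1.1⟩, fun e => hp.2 e.symm⟩
  · intro p _
    rfl
  · intro p _
    rfl

theorem and_iff {a b : Bool} : (a && b) = true ↔ a = true ∧ b = true := by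
  cases a <;> cases b <;> simp

theorem ble_iff {a b : Nat} : Nat.ble a b = true ↔ a ≤ b :=
  ⟨Nat.le_of_ble_eq_true, Nat.ble_eq_true_of_le⟩

/-- a number below `2 ^ n` has no bits from `n` on -/
theorem lt_of_testBit {m n i : Nat} (hm : m < 2 ^ n) (hi : m.testBit i = true) : i < n := by
  by_contra hc
  push Not at hc
  have h := Nat.testBit_lt_two_pow (lt_of_lt_of_le hm (Nat.pow_le_pow_right (by norm_num) hc))
  rw [h] at hi
  exact absurd hi (by simp)

/-- the bits of a packed row -/
theorem row_testBit {a b : Nat} (hb : b < 2 ^ 32) (q : Nat) :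
    (Nat.add (Nat.shiftLeft a 32) b).testBit q =
      if q < 32 then b.testBit q else a.testBit (q - 32) := by
  have h0 : Nat.add (Nat.shiftLeft a 32) b = 2 ^ 32 * a + b := by
    have : Nat.shiftLeft a 32 = a * 2 ^ 32 := Nat.shiftLeft_eq a 32
    rw [this, Nat.mul_comm]
    rfl
  rw [h0, Nat.testBit_two_pow_mul_add _ hb]

theorem nm_testBit {ps : List (Nat × Nat)} {q : Nat} (h : (nm ps).testBit q = true) :
    ∃ p ∈ ps, q = 64 * p.1 + (32 + p.2) := by
  induction ps with
  | nil => simp [nm] at h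
  | cons p ps ih =>
    rw [nm, lor_testBit, Bool.or_eq_true] at h
    rcases h with h | h
    · rw [pow_testBit, decide_eq_true_eq] at h
      exact ⟨p, List.mem_cons_self, h.symm⟩
    · obtain ⟨p', h1, h2⟩ := ih h
      exact ⟨p', List.mem_cons_of_mem _ h1, h2⟩

theorem xorpow_testBit {L k i : Nat} (hk : L.testBit k = true)
    (h : (Nat.xor L (Nat.pow 2 k)).testBit i = true) : L.testBit i = true ∧ i ≠ k := by
  rw [xor_testBit, pow_testBit] at h
  by_cases hik : k = i
  · subst hik
    rw [hk] at h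
    simp at h
  · have : decide (k = i) = false := by simpa using hik
    rw [this] at h
    refine ⟨by simpa using h, fun e => hik e.symm⟩

theorem mo_spec {ps : List (Nat × Nat)} : ∀ {L K : Nat}, mo ps L K = true →
    (∀ p ∈ ps, L.testBit p.1 = true ∧ K.testBit p.2 = true) ∧
    (∀ p ∈ ps, ∀ q ∈ ps, p.1 = q.1 → p = q) ∧ (∀ p ∈ ps, ∀ q ∈ ps, p.2 = q.2 → p = q) := by
  induction ps with
  | nil => intro L K _; simp
  | cons p ps ih =>
    intro L K h
    rw [mo, and_iff, and_iff, bt_eq, bt_eq] at h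
    obtain ⟨h1, h2, h3⟩ := h
    obtain ⟨i1, i2, i3⟩ := ih h3
    have j1 : ∀ q ∈ ps, (L.testBit q.1 = true ∧ q.1 ≠ p.1) ∧ (K.testBit q.2 = true ∧ q.2 ≠ p.2) :=
      fun q hq => ⟨xorpow_testBit h1 (i1 q hq).1, xorpow_testBit h2 (i1 q hq).2⟩
    refine ⟨?_, ?_, ?_⟩
    · intro q hq
      rcases List.mem_cons.1 hq with rfl | hq
      · exact ⟨h1, h2⟩
      · exact ⟨(j1 q hq).1.1, (j1 q hq).2.1⟩
    · intro q hq q' hq' e
      rcases List.mem_cons.1 hq with hq | hq
      · rcases List.mem_cons.1 hq' with hq' | hq'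
        · rw [hq, hq']
        · rw [hq] at e
          exact absurd e.symm (j1 q' hq').1.2
      · rcases List.mem_cons.1 hq' with hq' | hq'
        · rw [hq'] at e
          exact absurd e (j1 q hq).1.2
        · exact i2 q hq q' hq' e
    · intro q hq q' hq' e
      rcases List.mem_cons.1 hq with hq | hq
      · rcases List.mem_cons.1 hq' with hq' | hq'
        · rw [hq, hq']
        · rw [hq] at e
          exact absurd e.symm (j1 q' hq').2.2
      · rcases List.mem_cons.1 hq' with hq' | hq'
        · rw [hq'] at e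
          exact absurd e (j1 q hq).2.2
        · exact i3 q hq q' hq' e

/-- the vertices of a mask -/
def Sm (m : Nat) : Finset ℕ := (Finset.range 20).filter (fun i => m.testBit i = true)

theorem mem_Sm {m : Nat} (hm : m < 2 ^ 20) {i : ℕ} : i ∈ Sm m ↔ m.testBit i = true := by
  unfold Sm
  rw [Finset.mem_filter, Finset.mem_range]
  exact ⟨fun h => h.2, fun h => ⟨lt_of_testBit hm h, h⟩⟩

theorem NoZ.cd {Gr Gb : SimpleGraph W} {f : ℕ × ℕ × ℕ} (h : NoZ Gr Gb f) {L K : Finset W}
    (hZ : ZS Gr Gb L K) (hM : M Gb L K ≤ f.2.2) (hc : cd f.1 f.2.1 L.card K.card = true) :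
    False := by
  unfold T5.cd at hc
  rw [Bool.or_eq_true, and_iff, and_iff, ble_iff, ble_iff, ble_iff, ble_iff] at hc
  rcases hc with ⟨h1, h2⟩ | ⟨h1, h2⟩
  · exact h L K hZ h1 h2 hM
  · exact h K L hZ.symm h2 h1 (by rw [M_comm]; exact hM)

theorem z_sound {Gr Gb : SimpleGraph W} {n G : ℕ} (hn : n ≤ 19) {φ : ℕ → W} (hG : Has Gr Gb n G φ)
    {F : List (ℕ × ℕ × ℕ)} (hF : ∀ f ∈ F, NoZ Gr Gb f) {deps : List (ℕ × ℕ)} {L K pt : ℕ}
    {ps : List (ℕ × ℕ)} {ci : ℕ} (h : wc n G F deps (.z L K pt ps ci) = true) {u : W}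
    (hu : Att Gr Gb n φ u (Wt.z L K pt ps ci).P) : False := by
  have h' : ((Nat.ble (Nat.add L 1) (Nat.pow 2 n) && (Nat.ble (Nat.add K 1) (Nat.pow 2 n) &&
      (dj L K && (sb pt K && (ob pt && mo ps L (Nat.xor K pt)))))) &&
      zc G L K (nm ps) (sp L) (sp K) (F.getD ci (99, 99, 0))
        (Nat.add ps.length (bif Nat.beq pt 0 then 0 else 1))) = true := h
  rw [and_iff, and_iff, and_iff, and_iff, and_iff, and_iff, ble_iff, ble_iff] at h'
  obtain ⟨⟨hL, hK, hdj, hsb, hob, hmo⟩, hz⟩ := h'
  have hL : L < 2 ^ n := hL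
  have hK : K < 2 ^ n := hK
  have hn20 : (2 : ℕ) ^ n ≤ 2 ^ 20 := Nat.pow_le_pow_right (by norm_num) (by omega)
  have hL20 : L < 2 ^ 20 := lt_of_lt_of_le hL hn20
  have hK20 : K < 2 ^ 20 := lt_of_lt_of_le hK hn20
  have hdj := dj_iff.1 hdj
  have hsb := sb_iff.1 hsb
  have hob := ob_iff hob
  obtain ⟨hm1, hm2, hm3⟩ := mo_spec hmo
  have hm1' : ∀ p ∈ ps, L.testBit p.1 = true ∧ K.testBit p.2 = true ∧ pt.testBit p.2 = false := by
    intro p hp
    obtain ⟨h1, h2⟩ := hm1 p hp
    rw [xor_testBit] at h2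
    refine ⟨h1, ?_⟩
    cases hpt : pt.testBit p.2
    · rw [hpt] at h2
      exact ⟨by simpa using h2, rfl⟩
    · rw [hpt, hsb _ hpt] at h2
      simp at h2
  unfold zc at hz
  rw [and_iff, and_iff, and_iff, ble_iff] at hz
  obtain ⟨hz1, hz2, hz3, hz4⟩ := hz
  -- the rows
  have hX : Nat.add (Nat.shiftLeft (Nat.lor L K) 32) K < 2 ^ 64 := by
    apply Nat.lt_pow_two_of_testBit
    intro i hi
    rw [row_testBit (lt_trans hK20 (by norm_num)), if_neg (by omega), lor_testBit,
      Bool.or_eq_false_iff]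
    constructor
    · by_contra hc
      have := lt_of_testBit hL20 (by simpa using hc)
      omega
    · by_contra hc
      have := lt_of_testBit hK20 (by simpa using hc)
      omega
  have hX2 : Nat.shiftLeft K 32 < 2 ^ 64 := by
    apply Nat.lt_pow_two_of_testBit
    intro i hi
    rw [shl_testBit]
    by_contra hc
    have h1 : K.testBit (i - 32) = true := by
      cases hh : K.testBit (i - 32)
      · rw [hh] at hc
        simp at hc
      · rfl
    have := lt_of_testBit hK20 h1
    omega
  have hz1 := sb_iff.1 hz1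
  have hz2 := sb_iff.1 hz2
  have h63 : (2 : ℕ) ^ 20 < 2 ^ 63 := by norm_num
  -- red pairs between `L` and `K`
  have hred : ∀ i j, L.testBit i = true → K.testBit j = true →
      G.testBit (64 * i + j) = true := by
    intro i j hi hj
    have hi20 := lt_of_testBit hL20 hi
    have hj20 := lt_of_testBit hK20 hj
    have h1 := hz1 (64 * i + j) (by
      rw [mul_sp_testBit hX (lt_trans hL20 h63) hi20 (by omega), hi,
        row_testBit (lt_trans hK20 (by norm_num)), if_pos (by omega), hj]
      rfl)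
    rw [lor_testBit, Bool.or_eq_true] at h1
    rcases h1 with h1 | h1
    · exact h1
    · exfalso
      obtain ⟨p, hp, he⟩ := nm_testBit h1
      have h2 := lt_of_testBit hK20 (hm1' p hp).2.1
      omega
  -- blue pairs
  have hblue : ∀ i j, L.testBit i = true → (L.testBit j = true ∨ K.testBit j = true) →
      G.testBit (64 * i + 32 + j) = true ∨ (i, j) ∈ ps := by
    intro i j hi hj
    have hi20 := lt_of_testBit hL20 hi
    have hj20 : j < 20 := by
      rcases hj with hj | hj
      · exact lt_of_testBit hL20 hj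
      · exact lt_of_testBit hK20 hj
    have h1 := hz1 (64 * i + (32 + j)) (by
      rw [mul_sp_testBit hX (lt_trans hL20 h63) hi20 (by omega), hi,
        row_testBit (lt_trans hK20 (by norm_num)), if_neg (by omega), Nat.add_sub_cancel_left,
        lor_testBit]
      rcases hj with hj | hj <;> rw [hj] <;> simp)
    rw [lor_testBit, Bool.or_eq_true] at h1
    rcases h1 with h1 | h1
    · left
      rw [Nat.add_assoc]
      exact h1
    · right
      obtain ⟨p, hp, he⟩ := nm_testBit h1
      have h2 := lt_of_testBit hK20 (hm1' p hp).2.1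
      have h3 : p = (i, j) := by
        apply Prod.ext
        · show p.1 = i
          omega
        · show p.2 = j
          omega
      rw [← h3]
      exact hp
  have hblueK : ∀ i j, K.testBit i = true → K.testBit j = true →
      G.testBit (64 * i + 32 + j) = true := by
    intro i j hi hj
    have hi20 := lt_of_testBit hK20 hi
    have hj20 := lt_of_testBit hK20 hj
    have h1 := hz2 (64 * i + (32 + j)) (by
      rw [mul_sp_testBit hX2 (lt_trans hK20 h63) hi20 (by omega), hi, shl_testBit,
        Nat.add_sub_cancel_left, hj]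
      simp)
    rw [Nat.add_assoc]
    exact h1
  -- in the graphs
  have gL : ∀ i, L.testBit i = true → i < n := fun i hi => lt_of_testBit hL hi
  have gK : ∀ i, K.testBit i = true → i < n := fun i hi => lt_of_testBit hK hi
  have hLK : ∀ i j, L.testBit i = true → K.testBit j = true → i ≠ j := by
    rintro i j hi hj rfl
    rw [hdj i hi] at hj
    exact absurd hj (by simp)
  have aR : ∀ i j, L.testBit i = true → K.testBit j = true → Gr.Adj (φ i) (φ j) :=
    fun i j hi hj => (hG i (gL i hi) j (gK j hj) (hLK i j hi hj)).1 (hred i j hi hj)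
  have aBL : ∀ i j, L.testBit i = true → L.testBit j = true → i ≠ j → Gb.Adj (φ i) (φ j) := by
    intro i j hi hj hij
    refine (hG i (gL i hi) j (gL j hj) hij).2 ?_
    rcases hblue i j hi (Or.inl hj) with h1 | h1
    · exact h1
    · exact absurd (hm1' _ h1).2.1 (by
        show ¬ K.testBit j = true
        rw [hdj j hj]
        simp)
  have aBK : ∀ i j, K.testBit i = true → K.testBit j = true → i ≠ j → Gb.Adj (φ i) (φ j) :=
    fun i j hi hj hij => (hG i (gK i hi) j (gK j hj) hij).2 (hblueK i j hi hj)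
  have aB : ∀ i j, L.testBit i = true → K.testBit j = true → ¬ Gb.Adj (φ i) (φ j) →
      (i, j) ∈ ps := by
    intro i j hi hj hnb
    rcases hblue i j hi (Or.inr hj) with h1 | h1
    · exact absurd ((hG i (gL i hi) j (gK j hj) (hLK i j hi hj)).2 h1) hnb
    · exact h1
  -- the vertex `u`
  have hP : (Wt.z L K pt ps ci).P = Nat.lor K (Nat.shiftLeft (Nat.lor L (mn K pt)) 32) := rfl
  rw [hP] at hu
  have uR : ∀ j, K.testBit j = true → Gr.Adj u (φ j) := by
    intro j hj
    refine (hu j (gK j hj)).1 ?_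
    rw [lor_testBit, hj]
    rfl
  have uBL : ∀ j, L.testBit j = true → Gb.Adj u (φ j) := by
    intro j hj
    refine (hu j (gL j hj)).2 ?_
    rw [lor_testBit, shl_testBit, Nat.add_sub_cancel_left, lor_testBit, hj]
    simp
  have uBK : ∀ j, K.testBit j = true → ¬ Gb.Adj u (φ j) → pt.testBit j = true := by
    intro j hj hnb
    by_contra hc
    apply hnb
    refine (hu j (gK j hj)).2 ?_
    have hc' : pt.testBit j = false := by simpa using hc
    rw [lor_testBit, shl_testBit, Nat.add_sub_cancel_left, lor_testBit, mn_testBit, hj, hc']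
    simp
  -- the two cliques
  have hmemL : ∀ {i}, i ∈ Sm L ↔ L.testBit i = true := fun {i} => mem_Sm hL20
  have hmemK : ∀ {i}, i ∈ Sm K ↔ K.testBit i = true := fun {i} => mem_Sm hK20
  have hinjL : Set.InjOn φ (Sm L : Set ℕ) := by
    intro i hi j hj hij
    by_contra hc
    have h1 := aBL i j (hmemL.1 hi) (hmemL.1 hj) hc
    rw [hij] at h1
    exact Gb.irrefl h1
  have hinjK : Set.InjOn φ (Sm K : Set ℕ) := by
    intro i hi j hj hij
    by_contra hc
    have h1 := aBK i j (hmemK.1 hi) (hmemK.1 hj) hc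
    rw [hij] at h1
    exact Gb.irrefl h1
  have huL : u ∉ (Sm L).image φ := by
    intro hc
    obtain ⟨i, hi, hiu⟩ := Finset.mem_image.1 hc
    have h1 := uBL i (hmemL.1 hi)
    rw [hiu] at h1
    exact Gb.irrefl h1
  have hZ : ZS Gr Gb (insert u ((Sm L).image φ)) ((Sm K).image φ) := by
    refine ⟨?_, ?_, ?_, ?_, ?_⟩
    · intro x hx y hy hxy
      rcases Finset.mem_insert.1 hx with rfl | hx
      · rcases Finset.mem_insert.1 hy with rfl | hy
        · exact absurd rfl hxy
        · obtain ⟨j, hj, rfl⟩ := Finset.mem_image.1 hy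
          exact uBL j (hmemL.1 hj)
      · obtain ⟨i, hi, rfl⟩ := Finset.mem_image.1 hx
        rcases Finset.mem_insert.1 hy with rfl | hy
        · exact (uBL i (hmemL.1 hi)).symm
        · obtain ⟨j, hj, rfl⟩ := Finset.mem_image.1 hy
          exact aBL i j (hmemL.1 hi) (hmemL.1 hj) (fun e => hxy (by rw [e]))
    · intro x hx y hy hxy
      obtain ⟨i, hi, rfl⟩ := Finset.mem_image.1 hx
      obtain ⟨j, hj, rfl⟩ := Finset.mem_image.1 hy
      exact aBK i j (hmemK.1 hi) (hmemK.1 hj) (fun e => hxy (by rw [e]))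
    · intro x hx y hy
      obtain ⟨j, hj, rfl⟩ := Finset.mem_image.1 hy
      rcases Finset.mem_insert.1 hx with rfl | hx
      · exact uR j (hmemK.1 hj)
      · obtain ⟨i, hi, rfl⟩ := Finset.mem_image.1 hx
        exact aR i j (hmemL.1 hi) (hmemK.1 hj)
    · intro x hx y hy y' hy' h1 h2
      obtain ⟨j, hj, rfl⟩ := Finset.mem_image.1 hy
      obtain ⟨j', hj', rfl⟩ := Finset.mem_image.1 hy'
      rcases Finset.mem_insert.1 hx with rfl | hx
      · rw [hob j j' (uBK j (hmemK.1 hj) h1) (uBK j' (hmemK.1 hj') h2)]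
      · obtain ⟨i, hi, rfl⟩ := Finset.mem_image.1 hx
        have e := hm2 _ (aB i j (hmemL.1 hi) (hmemK.1 hj) h1) _
          (aB i j' (hmemL.1 hi) (hmemK.1 hj') h2) rfl
        have e' : j = j' := congrArg Prod.snd e
        rw [e']
    · intro y hy x hx x' hx' h1 h2
      obtain ⟨j, hj, rfl⟩ := Finset.mem_image.1 hy
      rcases Finset.mem_insert.1 hx with rfl | hx
      · rcases Finset.mem_insert.1 hx' with rfl | hx'
        · rfl
        · obtain ⟨i, hi, rfl⟩ := Finset.mem_image.1 hx'
          have e1 := uBK j (hmemK.1 hj) h1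
          have e2 : pt.testBit j = false := (hm1' _ (aB i j (hmemL.1 hi) (hmemK.1 hj) h2)).2.2
          rw [e1] at e2
          exact absurd e2 (by simp)
      · obtain ⟨i, hi, rfl⟩ := Finset.mem_image.1 hx
        rcases Finset.mem_insert.1 hx' with rfl | hx'
        · have e1 := uBK j (hmemK.1 hj) h2
          have e2 : pt.testBit j = false := (hm1' _ (aB i j (hmemL.1 hi) (hmemK.1 hj) h1)).2.2
          rw [e1] at e2
          exact absurd e2 (by simp)
        · obtain ⟨i', hi', rfl⟩ := Finset.mem_image.1 hx'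
          have e := hm3 _ (aB i j (hmemL.1 hi) (hmemK.1 hj) h1) _
            (aB i' j (hmemL.1 hi') (hmemK.1 hj) h2) rfl
          have e' : i = i' := congrArg Prod.fst e
          rw [e']
  -- the number of pairs that are not blue
  have hpt20 : pt < 2 ^ 20 := by
    apply Nat.lt_pow_two_of_testBit
    intro i hi
    by_contra hc
    have := lt_of_testBit hK20 (hsb i (by simpa using hc))
    omega
  have hMc : M Gb (insert u ((Sm L).image φ)) ((Sm K).image φ) ≤
      Nat.add ps.length (bif Nat.beq pt 0 then 0 else 1) := by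
    have hsub : ((insert u ((Sm L).image φ) ×ˢ ((Sm K).image φ)).filter
        (fun p => ¬ Gb.Adj p.1 p.2)) ⊆ (ps.toFinset.image (fun p => (φ p.1, φ p.2))) ∪
        ((Sm pt).image (fun j => (u, φ j))) := by
      intro p hp
      rw [Finset.mem_filter, Finset.mem_product] at hp
      obtain ⟨⟨hx, hy⟩, hnb⟩ := hp
      obtain ⟨j, hj, hjy⟩ := Finset.mem_image.1 hy
      rcases Finset.mem_insert.1 hx with hx | hx
      · apply Finset.mem_union_right
        refine Finset.mem_image.2 ⟨j, (mem_Sm hpt20).2 ?_, Prod.ext hx.symm hjy⟩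
        apply uBK j (hmemK.1 hj)
        rw [← hx, hjy]
        exact hnb
      · obtain ⟨i, hi, hix⟩ := Finset.mem_image.1 hx
        apply Finset.mem_union_left
        refine Finset.mem_image.2 ⟨(i, j), List.mem_toFinset.2 ?_, Prod.ext hix hjy⟩
        apply aB i j (hmemL.1 hi) (hmemK.1 hj)
        rw [hix, hjy]
        exact hnb
    refine (Finset.card_le_card hsub).trans ((Finset.card_union_le _ _).trans ?_)
    have h1 : (ps.toFinset.image (fun p => (φ p.1, φ p.2))).card ≤ ps.length :=
      Finset.card_image_le.trans (List.toFinset_card_le _)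
    have h2 : ((Sm pt).image (fun j => (u, φ j))).card ≤ (bif Nat.beq pt 0 then 0 else 1) := by
      refine Finset.card_image_le.trans ?_
      cases h0 : Nat.beq pt 0
      · show (Sm pt).card ≤ 1
        rw [Finset.card_le_one]
        intro i hi j hj
        exact hob i j ((mem_Sm hpt20).1 hi) ((mem_Sm hpt20).1 hj)
      · show (Sm pt).card ≤ 0
        rw [beq_iff] at h0
        subst h0
        rw [Nat.le_zero, Finset.card_eq_zero]
        ext i
        rw [mem_Sm hpt20]
        simp
    exact Nat.add_le_add h1 h2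
  have hcL : (insert u ((Sm L).image φ)).card = Nat.add (Nat.mod (sp L) f64) 1 := by
    rw [Finset.card_insert_of_notMem huL, Finset.card_image_of_injOn hinjL, sp_mod hL20]
    rfl
  have hcK : ((Sm K).image φ).card = Nat.mod (sp K) f64 := by
    rw [Finset.card_image_of_injOn hinjK, sp_mod hK20]
    rfl
  rw [← hcL, ← hcK] at hz4
  by_cases hci : ci < F.length
  · have hf : F.getD ci (99, 99, 0) ∈ F := by
      rw [List.getD_eq_getElem _ _ hci]
      exact List.getElem_mem hci
    exact (hF _ hf).cd hZ (hMc.trans hz3) hz4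
  · have hf : F.getD ci (99, 99, 0) = (99, 99, 0) :=
      List.getD_eq_default _ _ (by omega)
    rw [hf] at hz4
    have h1 : (insert u ((Sm L).image φ)).card ≤ 21 := by
      refine (Finset.card_insert_le _ _).trans ?_
      have : ((Sm L).image φ).card ≤ 20 := Finset.card_image_le.trans
        ((Finset.card_filter_le _ _).trans (by rw [Finset.card_range]))
      omega
    have h2 : ∀ a b : ℕ, a ≤ 21 → T5.cd 99 99 a b = true → False := by
      intro a b ha hab
      unfold T5.cd at hab
      rw [Bool.or_eq_true, and_iff, ble_iff, ble_iff] at hab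
      omega
    exact h2 _ _ h1 hz4

end Pool.Agent.Lib.MP_a05470_co.T5
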