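import Pool.Agent.Lib.MP_a05470_co.FrontierLabel
import Pool.Agent.Lib.MP_a05470_co.T5.Cfg

/-!
# The bookkeeping of the forbidden pairs of cliques
-/

set_option autoImplicit false

namespace Pool.Agent.Lib.MP_a05470_co.T5

open Finset Classical Pool.Agent.Lib.MP_a05470_co.Frontier

variable {W : Type} {Gr Gb : SimpleGraph W}

theorem NoZ.mono {p q m : ℕ} (h : NoZ Gr Gb (p, q, m)) {p' q' m' : ℕ} (hp : p ≤ p') (hq : q ≤ q')
    (hm : m' ≤ m) : NoZ Gr Gb (p', q', m') :=
  fun L K hZ h1 h2 h3 => h L K hZ (hp.trans h1) (hq.trans h2) (le_trans (b := m') h3 hm)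

theorem NoZ.symm {p q m : ℕ} (h : NoZ Gr Gb (p, q, m)) : NoZ Gr Gb (q, p, m) :=
  fun L K hZ h1 h2 h3 => h K L hZ.symm h2 h1 (by rw [M_comm]; exact h3)

theorem M_mono {L K L' K' : Finset W} (hL : L' ⊆ L) (hK : K' ⊆ K) : M Gb L' K' ≤ M Gb L K := by
  unfold M
  apply Finset.card_le_card
  intro p hp
  rw [Finset.mem_filter, Finset.mem_product] at hp ⊢
  exact ⟨⟨hL hp.1.1, hK hp.1.2⟩, hp.2⟩

theorem M_le_card {L K : Finset W} (h : ZS Gr Gb L K) : M Gb L K ≤ L.card := by
  unfold M
  have h1 : (((L ×ˢ K).filter (fun p => ¬ Gb.Adj p.1 p.2)).image Prod.fst).card =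
      ((L ×ˢ K).filter (fun p => ¬ Gb.Adj p.1 p.2)).card := by
    apply Finset.card_image_of_injOn
    intro p hp q hq hpq
    rw [Finset.mem_coe, Finset.mem_filter, Finset.mem_product] at hp hq
    have h2 := h.mL p.1 hp.1.1 p.2 hp.1.2 q.2 hq.1.2 hp.2 (by rw [hpq]; exact hq.2)
    exact Prod.ext hpq h2
  rw [← h1]
  apply Finset.card_le_card
  intro x hx
  obtain ⟨p, hp, rfl⟩ := Finset.mem_image.1 hx
  exact (Finset.mem_product.1 (Finset.mem_filter.1 hp).1).1

/-- a pair of type `(p, q)` has at most `p` pairs that are not blue -/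
theorem NoZ.any {p q : ℕ} (h : NoZ Gr Gb (p, q, p)) (m : ℕ) : NoZ Gr Gb (p, q, m) := by
  intro L K hZ h1 h2 _
  obtain ⟨L', hL', hc⟩ := Finset.exists_subset_card_eq (show p ≤ L.card from h1)
  have hZ' := hZ.mono hL' (Finset.Subset.refl K)
  exact h L' K hZ' hc.ge h2 ((M_le_card hZ').trans hc.le)

/-- the bits of a row of a configuration are allowed -/
def rowOk (l r G i : Nat) : Nat → Bool
  | 0 => true
  | j + 1 => (Nat.beq i j || ((!(bt G (Nat.add (Nat.mul 64 i) j)) ||
      ((Nat.blt i l && Nat.ble l j) || (Nat.blt j l && Nat.ble l i))) &&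
      (!(bt G (Nat.add (Nat.add (Nat.mul 64 i) 32) j)) ||
      !((Nat.blt i r && Nat.beq j (Nat.add l i)) || (Nat.blt j r && Nat.beq i (Nat.add l j)))))) &&
      rowOk l r G i j

/-- the bits of a configuration are allowed -/
def baseOk (l r G s : Nat) : Nat → Bool
  | 0 => true
  | i + 1 => rowOk l r G i s && baseOk l r G s i

theorem rowOk_spec {l r G i s : Nat} (h : rowOk l r G i s = true) : ∀ j < s, i ≠ j →
    (G.testBit (64 * i + j) = true → (i < l ∧ l ≤ j) ∨ (j < l ∧ l ≤ i)) ∧
    (G.testBit (64 * i + 32 + j) = true → ¬ (i < r ∧ j = l + i) ∧ ¬ (j < r ∧ i = l + j)) := by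
  induction s with
  | zero => intro j hj; omega
  | succ s ih =>
    intro j hj hij
    rw [rowOk, and_iff] at h
    rcases Nat.lt_succ_iff_lt_or_eq.1 hj with hj | rfl
    · exact ih h.2 j hj hij
    · have h1 := h.1
      rw [Bool.or_eq_true, beq_iff, and_iff] at h1
      rcases h1 with h1 | ⟨h1, h2⟩
      · exact absurd h1 hij
      · constructor
        · intro hb
          rcases (Bool.or_eq_true _ _).mp h1 with h1 | h1
          · rw [bt_eq] at h1
            have hb' : G.testBit (Nat.add (Nat.mul 64 i) j) = true := hb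
            rw [hb'] at h1
            exact absurd h1 (by simp)
          · rcases (Bool.or_eq_true _ _).mp h1 with h1 | h1
            · rw [and_iff, ble_iff] at h1
              exact Or.inl ⟨ble_iff.1 h1.1, h1.2⟩
            · rw [and_iff, ble_iff] at h1
              exact Or.inr ⟨ble_iff.1 h1.1, h1.2⟩
        · intro hb
          rcases (Bool.or_eq_true _ _).mp h2 with h2 | h2
          · rw [bt_eq] at h2
            have hb' : G.testBit (Nat.add (Nat.add (Nat.mul 64 i) 32) j) = true := hb
            rw [hb'] at h2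
            exact absurd h2 (by simp)
          · rw [Bool.not_eq_true', Bool.or_eq_false_iff] at h2
            constructor
            · rintro ⟨h3, h4⟩
              have h5 : (Nat.blt i r && Nat.beq j (Nat.add l i)) = true := by
                rw [and_iff, beq_iff]
                exact ⟨ble_iff.2 h3, h4⟩
              rw [h5] at h2
              exact absurd h2.1 (by simp)
            · rintro ⟨h3, h4⟩
              have h5 : (Nat.blt j r && Nat.beq i (Nat.add l j)) = true := by
                rw [and_iff, beq_iff]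
                exact ⟨ble_iff.2 h3, h4⟩
              rw [h5] at h2
              exact absurd h2.2 (by simp)

theorem baseOk_spec {l r G s : Nat} : ∀ {k : Nat}, baseOk l r G s k = true → ∀ i < k, ∀ j < s,
    i ≠ j → (G.testBit (64 * i + j) = true → (i < l ∧ l ≤ j) ∨ (j < l ∧ l ≤ i)) ∧
    (G.testBit (64 * i + 32 + j) = true → ¬ (i < r ∧ j = l + i) ∧ ¬ (j < r ∧ i = l + j)) := by
  intro k
  induction k with
  | zero => intro _ i hi; omega
  | succ k ih =>
    intro h i hi
    rw [baseOk, and_iff] at h
    rcases Nat.lt_succ_iff_lt_or_eq.1 hi with hi | rfl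
    · exact ih h.2 i hi
    · exact rowOk_spec h.1

/-- If the configuration `G` has no copy, then there is no pair of cliques of type `(l, m)` with
at most `r` pairs that are not blue. -/
theorem NoZ_of_base {l m r G : ℕ} (hm : 0 < m) (hb : baseOk l r G (l + m) (l + m) = true)
    (h : ∀ φ : ℕ → W, ¬ Has Gr Gb (l + m) G φ) : NoZ Gr Gb (l, m, r) := by
  intro L K hZ h1 h2 h3
  obtain ⟨L', hL', hcL⟩ := Finset.exists_subset_card_eq (show l ≤ L.card from h1)
  obtain ⟨K', hK', hcK⟩ := Finset.exists_subset_card_eq (show m ≤ K.card from h2)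
  have hZ' := hZ.mono hL' hK'
  have hM : M Gb L' K' ≤ r := (M_mono hL' hK').trans h3
  have hne : K'.Nonempty := Finset.card_pos.1 (by omega)
  have : Nonempty W := ⟨hne.choose⟩
  obtain ⟨φ, hφ⟩ := exists_labels hZ'
  rw [hcL, hcK] at hφ
  refine h φ ?_
  intro i hi j hj hij
  obtain ⟨hb1, hb2⟩ := baseOk_spec hb i hi j hj hij
  constructor
  · intro hG
    rcases hb1 hG with ⟨h4, h5⟩ | ⟨h4, h5⟩
    · have h6 := hφ.rd i h4 (j - l) (by omega)
      rwa [Nat.add_sub_cancel' h5] at h6
    · have h6 := hφ.rd j h4 (i - l) (by omega)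
      rw [Nat.add_sub_cancel' h5] at h6
      exact h6.symm
  · intro hG
    obtain ⟨h4, h5⟩ := hb2 hG
    by_cases hil : i < l
    · by_cases hjl : j < l
      · exact hφ.bl i hil j hjl hij
      · have h6 := hφ.bd i hil (j - l) (by omega) (by
          by_contra hc
          push Not at hc
          exact h4 ⟨by omega, by omega⟩)
        rwa [Nat.add_sub_cancel' (by omega)] at h6
    · by_cases hjl : j < l
      · have h6 := hφ.bd j hjl (i - l) (by omega) (by
          by_contra hc
          push Not at hc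
          exact h5 ⟨by omega, by omega⟩)
        rw [Nat.add_sub_cancel' (by omega)] at h6
        exact h6.symm
      · have h6 := hφ.bk (i - l) (by omega) (j - l) (by omega) (by omega)
        rwa [Nat.add_sub_cancel' (by omega), Nat.add_sub_cancel' (by omega)] at h6

end Pool.Agent.Lib.MP_a05470_co.T5
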