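import Pool.Agent.Lib.MP_a05470_co.T5.Check
import Pool.Agent.Lib.MP_a05470_co.T5.NoZ

/-!
# The certificates for the cliques of orders 0 and 1 with at most 0 pairs that are not blue
-/

set_option autoImplicit false

namespace Pool.Agent.Lib.MP_a05470_co.T5.S_0_1_0

open Pool.Agent.Lib.MP_a05470_co.Frontier

/-- the facts that are used -/
def F : List (Nat × Nat × Nat) := [(5, 5, 99), (0, 2, 99)]

/-- a configuration -/
def c0 : Nat := 0x100000000

/-- its certificate -/
def e0 : En :=
  { w := 0x1, ca := [(3, 1), (6, 4294967296)], D := 1, tp := 0x100000000,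
    tab := [.z 1 0 0 [] 1],
    sw := [], w0 := 0,
    t := .n }

theorem k0 : chk F [] 1 c0 e0 = true := by decide +kernel

variable {W : Type} [Fintype W] {Gr Gb : SimpleGraph W}

theorem st (hdeg : ∀ v : W, 3 * nonadj Gr v + 6 * nonadj Gb v < Fintype.card W)
    (hF : ∀ f ∈ F, NoZ Gr Gb f) : NoZ Gr Gb (0, 1, 0) := by
  have h0 : NoC Gr Gb (1, c0) := chk_sound hdeg hF dn k0
  exact NoZ_of_base (by norm_num) (by decide +kernel : baseOk 0 0 c0 (0 + 1) (0 + 1) = true) h0

end Pool.Agent.Lib.MP_a05470_co.T5.S_0_1_0
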