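import Pool.Agent.Lib.MP_a05470_co.T5.Check
import Pool.Agent.Lib.MP_a05470_co.T5.NoZ

/-!
# The certificates for the cliques of orders 0 and 7 with at most 0 pairs that are not blue
-/

set_option autoImplicit false

namespace Pool.Agent.Lib.MP_a05470_co.T5.S_0_7_0

open Pool.Agent.Lib.MP_a05470_co.Frontier

/-- the facts that are used -/
def F : List (Nat × Nat × Nat) := [(5, 5, 99), (0, 8, 99)]

/-- a configuration -/
def c0 : Nat := 0x7f70000007f000007fb0000007f000007fd0000007f000007fe0000007f000007ff00000780000007ff00000780000007ff00000780000003ff00000780000005ff00000780000006ff000007800000077f00000780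

/-- its certificate -/
def e0 : En :=
  { w := 0x300000003000000030000000300000002000000020000000200000002000000020000000200000002, ca := [(6, 127), (9, 1920), (12, 545460846592), (18, 8246337208320)], D := 26, tp := 0x7f000000000000007bc0000007c000007ba0000007a000007b900000079000007b600000076000007b500000075000007b300000073000007ae0000006e0000079e0000005e0000079d0000005d0000079b0000005b00000797000000570000078f0000004f000007be0000003e000007bb0000003b000007b7000000370000078f0000002f0000079f0000001f000007bd0000003d0000007f00000000,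
    tab := [.z 127 0 0 [] 1, .z 1920 61 0 [(7, 0), (9, 2), (10, 3)] 0, .z 1920 31 0 [(7, 0), (8, 1), (9, 2), (10, 3)] 0, .z 1920 47 32 [(7, 0), (8, 1), (9, 2), (10, 3)] 0, .z 1920 55 0 [(7, 0), (8, 1), (9, 2)] 0, .z 1920 59 0 [(7, 0), (8, 1), (10, 3)] 0, .z 1920 62 0 [(8, 1), (9, 2), (10, 3)] 0, .z 1920 79 64 [(7, 0), (8, 1), (9, 2), (10, 3)] 0, .z 1920 87 64 [(7, 0), (8, 1), (9, 2)] 0, .z 1920 91 64 [(7, 0), (8, 1), (10, 3)] 0, .z 1920 93 64 [(7, 0), (9, 2), (10, 3)] 0, .z 1920 94 64 [(8, 1), (9, 2), (10, 3)] 0, .z 1920 110 64 [(8, 1), (9, 2), (10, 3)] 0, .z 1920 115 64 [(7, 0), (8, 1)] 0, .z 1920 117 64 [(7, 0), (9, 2)] 0, .z 1920 118 64 [(8, 1), (9, 2)] 0, .z 1920 121 64 [(7, 0), (10, 3)] 0, .z 1920 122 64 [(8, 1), (10, 3)] 0, .z 1920 124 64 [(9, 2), (10, 3)] 0, .z 2032 0 0 [] 1],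
    sw := [(2, 16), (1, 32), (1, 16)], w0 := 19,
    t := (.s 0 .n (.s 0 .n (.s 0 .n (.s 0 .n (.s 13 (.s 3 .n (.y 0 2 (.s 1 .n (.s 12 .n (.s 1 (.s 2 .n (.y 0 2 (.s 4 .n (.s 5 .n (.s 6 .n .n))))) (.s 9 (.s 7 .n (.s 8 .n (.s 10 .n (.s 11 .n .n)))) (.y 0 2 (.s 18 (.s 14 .n (.s 16 .n .n)) (.s 17 (.s 15 .n .n) .n))))))))) (.y 0 1 (.y 1 0 .n))))))) }

theorem k0 : chk F [] 11 c0 e0 = true := by decide +kernel

/-- a configuration -/
def c1 : Nat := 0x3fb0000007f000003fd0000007f000003fe0000007f000003ff00000380000003ff00000380000003ff00000380000003ff00000380000001ff00000380000002ff000003800000037f00000380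

/-- its certificate -/
def e1 : En :=
  { w := 0x1000000010000000100000002000000020000000200000002000000020000000200000002, ca := [(3, 896), (6, 3848290697343), (12, 545460846592)], D := 17, tp := 0x2fa000000000000027b000000000000017d000000000000007f00000000000003bf0000007f,
    tab := [.r 0 4118873636991 [(6, 1), (5, 2), (4, 4), (3, 136), (2, 272), (1, 544)], .z 127 0 0 [] 1, .z 381 0 0 [] 1, .z 635 0 0 [] 1, .z 762 0 0 [] 1],
    sw := [(3, 8), (2, 16), (1, 32)], w0 := 1,
    t := (.s 0 .n (.y 0 2 (.y 1 1 (.y 2 0 (.s 3 .n (.s 2 .n (.s 4 .n .n))))))) }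

theorem k1 : chk F [(11, c0)] 10 c1 e1 = true := by decide +kernel

/-- a configuration -/
def c2 : Nat := 0x1fd0000007f000001fe0000007f000001ff00000180000001ff00000180000001ff00000180000001ff00000180000001ff00000180000000ff000001800000017f00000180

/-- its certificate -/
def e2 : En :=
  { w := 0x10000000100000002000000020000000200000002000000020000000200000002, ca := [(3, 384), (6, 1649267441791), (12, 545460846592)], D := 16, tp := 0x17d00000000000000fe000000000000007f00000000000001bf0000007f,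
    tab := [.r 0 1919850381439 [(6, 1), (5, 2), (4, 4), (3, 8), (2, 144), (1, 288)], .z 127 0 0 [] 1, .z 254 0 0 [] 1, .z 381 0 0 [] 1],
    sw := [(4, 4), (3, 8), (2, 16), (1, 32)], w0 := 1,
    t := (.s 0 .n (.y 0 3 (.y 1 2 (.y 2 1 (.y 3 0 (.s 3 .n (.s 2 .n .n))))))) }

theorem k2 : chk F [(10, c1)] 9 c2 e2 = true := by decide +kernel

/-- a configuration -/
def c3 : Nat := 0xfe0000007f000000ff00000080000000ff00000080000000ff00000080000000ff00000080000000ff00000080000000ff000000800000007f00000080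

/-- its certificate -/
def e3 : En :=
  { w := 0x100000002000000020000000200000002000000020000000200000002, ca := [(3, 128), (6, 549755814015), (12, 545460846592)], D := 15, tp := 0xfe000000000000007f00000000000000bf0000007f,
    tab := [.r 0 820338753663 [(6, 1), (5, 2), (4, 4), (3, 8), (2, 16), (1, 160)], .z 127 0 0 [] 1, .z 254 0 0 [] 1],
    sw := [(5, 2), (4, 4), (3, 8), (2, 16), (1, 32)], w0 := 1,
    t := (.s 0 .n (.y 0 4 (.y 1 3 (.y 2 2 (.y 3 1 (.y 4 0 (.s 2 .n .n))))))) }

theorem k3 : chk F [(9, c2)] 8 c3 e3 = true := by decide +kernel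

/-- a configuration -/
def c4 : Nat := 0x7f000000000000007f000000000000007f000000000000007f000000000000007f000000000000007f000000000000007f00000000

/-- its certificate -/
def e4 : En :=
  { w := 0x1000000010000000100000001000000010000000100000001, ca := [(3, 127), (6, 545460846592)], D := 7, tp := 0x7f000000000000003f0000007f,
    tab := [.r 0 270582939775 [(6, 1), (5, 2), (4, 4), (3, 8), (2, 16), (1, 32)], .z 127 0 0 [] 1],
    sw := [(6, 1), (5, 2), (4, 4), (3, 8), (2, 16), (1, 32)], w0 := 1,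
    t := (.s 0 .n (.y 0 5 (.y 1 4 (.y 2 3 (.y 3 2 (.y 4 1 (.y 5 0 .n))))))) }

theorem k4 : chk F [(8, c3)] 7 c4 e4 = true := by decide +kernel

variable {W : Type} [Fintype W] {Gr Gb : SimpleGraph W}

theorem st (hdeg : ∀ v : W, 3 * nonadj Gr v + 6 * nonadj Gb v < Fintype.card W)
    (hF : ∀ f ∈ F, NoZ Gr Gb f) : NoZ Gr Gb (0, 7, 0) := by
  have h0 : NoC Gr Gb (11, c0) := chk_sound hdeg hF dn k0
  have h1 : NoC Gr Gb (10, c1) := chk_sound hdeg hF (dc h0 dn) k1
  have h2 : NoC Gr Gb (9, c2) := chk_sound hdeg hF (dc h1 dn) k2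
  have h3 : NoC Gr Gb (8, c3) := chk_sound hdeg hF (dc h2 dn) k3
  have h4 : NoC Gr Gb (7, c4) := chk_sound hdeg hF (dc h3 dn) k4
  exact NoZ_of_base (by norm_num) (by decide +kernel : baseOk 0 0 c4 (0 + 7) (0 + 7) = true) h4

end Pool.Agent.Lib.MP_a05470_co.T5.S_0_7_0
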