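import Pool.Agent.Lib.MP_a05470_co.T5.Check
import Pool.Agent.Lib.MP_a05470_co.T5.NoZ

/-!
# The certificates for the cliques of orders 2 and 10 with at most 2 pairs that are not blue
-/

set_option autoImplicit false

namespace Pool.Agent.Lib.MP_a05470_co.T5.S_2_10_2

open Pool.Agent.Lib.MP_a05470_co.Frontier

/-- the facts that are used -/
def F : List (Nat × Nat × Nat) := [(5, 5, 99), (2, 11, 99), (2, 10, 1), (0, 12, 99), (1, 11, 99), (3, 9, 99), (3, 8, 1), (4, 7, 99), (4, 6, 1)]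

/-- a configuration -/
def c0 : Nat := 0xfff0000000300000fff0000000300000fff0000000300000fff0000000300000fff0000000300000fff0000000300000fff0000000300000fff0000000300000ffd0000000300000ffe0000000300000ff700000ffc00000ffb00000ffc

/-- its certificate -/
def e0 : En :=
  { w := 0x10000000100000001000000010000000100000001000000010000000100000001000000010000000100000001, ca := [(3, 4095), (6, 17587891077120)], D := 12, tp := 0xffe0000000200000ff700000003000003ff00000bfc00000ffe00000ffc00000ffd00000ffc00000ffd00000001000007ff000007fc000007f300000ff0,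
    tab := [.z 3 4080 2048 [] 6, .z 3 2044 0 [(0, 2), (1, 3)] 5, .z 4092 1 0 [(2, 0)] 4, .z 1 4092 0 [(0, 2)] 2, .z 2 4092 0 [(1, 3)] 2, .z 3 3068 2048 [(0, 2), (1, 3)] 5, .z 4084 3 0 [(2, 0)] 2, .z 4092 2 0 [(3, 1)] 4],
    sw := [(7, 16), (6, 32), (5, 64), (4, 128), (3, 256), (2, 512), (1, 1024), (1, 5), (6, 16), (5, 32), (4, 64), (3, 128), (2, 256), (1, 512)], w0 := 7,
    t := (.s 0 (.s 1 .n (.s 5 .n (.y 0 13 (.y 1 12 (.y 2 11 (.y 3 10 (.y 4 9 (.y 5 8 .n)))))))) (.y 0 6 (.y 1 5 (.y 2 4 (.y 3 3 (.y 4 2 (.y 5 1 (.y 6 0 (.s 0 (.s 6 .n (.y 0 6 (.y 1 5 (.y 2 4 (.y 3 3 (.y 4 2 (.y 5 1 (.y 6 0 .n)))))))) (.y 0 7 (.s 2 (.s 3 .n .n) (.s 2 (.s 4 .n (.s 0 (.s 1 .n (.y 0 6 (.y 1 5 (.y 2 4 (.y 3 3 (.y 4 2 (.y 5 1 (.y 6 0 .n)))))))) .n)) .n)))))))))))) }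

theorem k0 : chk F [] 12 c0 e0 = true := by decide +kernel

variable {W : Type} [Fintype W] {Gr Gb : SimpleGraph W}

theorem st (hdeg : ∀ v : W, 3 * nonadj Gr v + 6 * nonadj Gb v < Fintype.card W)
    (hF : ∀ f ∈ F, NoZ Gr Gb f) : NoZ Gr Gb (2, 10, 2) := by
  have h0 : NoC Gr Gb (12, c0) := chk_sound hdeg hF dn k0
  exact NoZ_of_base (by norm_num) (by decide +kernel : baseOk 2 2 c0 (2 + 10) (2 + 10) = true) h0

end Pool.Agent.Lib.MP_a05470_co.T5.S_2_10_2
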