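import Pool.Agent.Lib.MP_a05470_co.T5.Check
import Pool.Agent.Lib.MP_a05470_co.T5.NoZ

/-!
# The certificates for the cliques of orders 4 and 6 with at most 0 pairs that are not blue
-/

set_option autoImplicit false

namespace Pool.Agent.Lib.MP_a05470_co.T5.S_4_6_0

open Pool.Agent.Lib.MP_a05470_co.Frontier

/-- the facts that are used -/
def F : List (Nat × Nat × Nat) := [(5, 5, 99), (4, 7, 99), (0, 12, 99), (1, 12, 99), (1, 11, 0), (2, 11, 99), (2, 10, 1), (3, 9, 99), (3, 8, 1)]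

/-- a configuration -/
def c0 : Nat := 0x7ff0000000e000007ff0000000f000007ff0000000f000007ff0000000f000007ff0000000f000007ff0000000f000007ff0000000f000007ff000007f0000007ff000007f0000007ff000007f0000007ff000003f0

/-- its certificate -/
def e0 : En :=
  { w := 0x40000000900000009000000090000000900000009000000090000000c0000000c0000000c0000000a, ca := [(12, 1024), (24, 4398046511104), (27, 1008), (30, 1), (36, 14), (54, 4329327034368), (60, 4294967296), (72, 60129542144)], D := 104, tp := 0x7ff00000000000003f70000000f000003fe0000000f0000027f00000370000002ff000002f0000000ff000002f0000007fe000007f0000007f60000000e000003ff0000000f000001ff000001f0,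
    tab := [.z 15 496 0 [] 0, .z 1008 15 0 [] 1, .z 2032 14 8 [] 8, .z 14 2032 0 [] 1, .z 15 752 512 [] 0, .z 15 752 0 [] 0, .z 15 880 256 [] 0, .z 1008 15 1 [] 1, .z 1008 15 8 [] 1, .z 2047 0 0 [] 2],
    sw := [(2, 2), (1, 4), (5, 16), (4, 32), (3, 64), (2, 128), (1, 256), (4, 16), (3, 32), (2, 64), (1, 128), (3, 16), (2, 32), (1, 64)], w0 := 9,
    t := (.s 6 (.s 0 .n (.y 0 4 (.y 1 3 (.y 2 2 (.s 8 .n (.y 0 1 (.y 1 0 (.s 7 .n (.s 0 (.s 1 .n (.y 0 10 (.y 1 9 (.y 2 8 (.y 3 7 .n))))) (.s 5 (.s 1 .n (.y 0 13 (.y 1 12 (.y 2 11 .n)))) (.y 1 4 (.y 2 3 (.y 3 2 .n))))))))))))) (.s 0 (.s 4 .n (.y 0 10 (.y 1 9 (.y 2 8 (.y 3 7 .n))))) (.y 0 6 (.y 1 5 (.y 2 4 (.y 3 3 (.y 4 2 (.s 2 .n (.y 0 1 (.y 1 0 (.s 2 (.s 3 .n (.y 0 1 (.y 1 0 .n))) .n))))))))))) }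

theorem k0 : chk F [] 11 c0 e0 = true := by decide +kernel

/-- a configuration -/
def c1 : Nat := 0x7fe000003f0000007ff0000040f000007ff0000040f000007ff0000040f000007ff0000040f000007ff0000040f000007ff0000040f000007ff000003f0000007ff000003f0000007ff000003f0000003ff000003f0

/-- its certificate -/
def e1 : En :=
  { w := 0x200000003000000030000000300000003000000030000000300000004000000040000000400000002, ca := [(6, 1025), (9, 1008), (12, 4402341478414), (18, 4329327034368), (24, 60129542144)], D := 34, tp := 0x4fe000002f0000006ee000002f0000005fe000001f0000003fe0000040e000003f70000000f000003fe0000000f000003ef000003e0000000ff000002f0000003ff0000000e000003ff00000007000007f60000040e000001ff000001f0,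
    tab := [.z 15 496 0 [] 0, .z 1008 1038 8 [] 1, .r 0 4393751543815 [(3, 1), (2, 2), (1, 1028)], .r 0 4393751543822 [(1, 1024)], .z 15 752 512 [] 0, .z 15 992 0 [] 0, .z 1008 15 1 [] 1, .z 1008 15 8 [] 1, .z 1008 1038 1024 [] 1, .z 1038 496 0 [] 0, .z 1038 752 16 [] 0, .z 1038 752 512 [] 0],
    sw := [(2, 2), (1, 4), (4, 32), (3, 64), (2, 128), (1, 256), (4, 16), (3, 32), (2, 64), (1, 128), (5, 16)], w0 := 3,
    t := (.s 0 (.s 11 .n (.s 4 .n (.y 0 9 (.y 1 8 (.y 2 7 (.y 3 6 .n)))))) (.y 0 5 (.y 1 4 (.y 2 3 (.y 3 2 (.y 4 10 (.s 1 (.s 7 .n .n) (.y 0 1 (.y 1 0 (.s 10 (.s 6 (.s 8 .n .n) (.s 9 (.s 1 .n (.y 0 9 (.y 1 8 (.y 2 7 (.y 3 6 .n))))) (.y 0 4 (.y 1 3 (.y 2 2 (.y 3 10 .n)))))) (.s 5 (.s 0 (.s 2 .n (.y 0 9 (.y 1 8 (.y 2 7 (.y 3 6 .n))))) (.y 0 5 (.y 1 4 (.y 2 3 (.y 3 2 .n))))) (.y 0 1 (.y 1 0 .n))))))))))))) }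

theorem k1 : chk F [(11, c0)] 11 c1 e1 = true := by decide +kernel

/-- a configuration -/
def c2 : Nat := 0x3ff0000000f000003ff0000000f000003ff0000000f000003ff0000000f000003ff0000000f000003ff0000000f000003ff000003f0000003ff000003f0000003ff000003f0000003ff000003f0

/-- its certificate -/
def e2 : En :=
  { w := 0x1000000010000000100000001000000010000000100000001000000010000000100000001, ca := [(3, 1023), (6, 4393751543808)], D := 10, tp := 0x3f70000000f000003df000003d0000000ff000002f0000003f7000003f0000003ff0000000b000003ff00000007000001ff000001f0,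
    tab := [.z 15 496 0 [] 0, .r 0 4393751543815 [(3, 1), (2, 2), (1, 4)], .r 0 4393751543819 [(2, 1), (1, 2)], .r 1 4359391806448 [(3, 1), (2, 2), (1, 4)], .z 15 752 512 [] 0, .z 15 976 0 [] 0, .z 1008 15 8 [] 1],
    sw := [(3, 1), (2, 2), (2, 1), (1, 2), (5, 16), (3, 64), (2, 128), (1, 256), (1, 4), (4, 32), (4, 16), (3, 32), (2, 64), (1, 128)], w0 := 2,
    t := (.s 0 (.s 4 .n (.y 0 13 (.y 1 12 (.y 2 11 (.y 3 10 .n))))) (.y 0 7 (.y 1 6 (.y 2 5 (.y 3 9 (.y 4 4 (.s 3 (.s 6 .n (.y 0 7 (.y 1 6 (.y 2 5 (.y 3 9 (.y 4 4 .n)))))) (.y 0 8 (.y 1 1 (.y 2 0 (.s 1 (.s 5 (.s 0 .n (.y 0 7 (.y 1 6 (.y 2 5 (.y 3 4 .n))))) (.y 0 3 (.y 1 2 .n))) (.y 0 1 (.y 1 0 .n))))))))))))) }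

theorem k2 : chk F [(11, c0), (11, c1)] 10 c2 e2 = true := by decide +kernel

variable {W : Type} [Fintype W] {Gr Gb : SimpleGraph W}

theorem st (hdeg : ∀ v : W, 3 * nonadj Gr v + 6 * nonadj Gb v < Fintype.card W)
    (hF : ∀ f ∈ F, NoZ Gr Gb f) : NoZ Gr Gb (4, 6, 0) := by
  have h0 : NoC Gr Gb (11, c0) := chk_sound hdeg hF dn k0
  have h1 : NoC Gr Gb (11, c1) := chk_sound hdeg hF (dc h0 dn) k1
  have h2 : NoC Gr Gb (10, c2) := chk_sound hdeg hF (dc h0 (dc h1 dn)) k2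
  exact NoZ_of_base (by norm_num) (by decide +kernel : baseOk 4 0 c2 (4 + 6) (4 + 6) = true) h2

end Pool.Agent.Lib.MP_a05470_co.T5.S_4_6_0
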