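import Pool.Agent.Lib.MP_a05470_co.FrontierInit5
import Pool.Agent.Lib.MP_a05470_co.T5.S_3_8_0
import Pool.Agent.Lib.MP_a05470_co.T5.S_2_10_0
import Pool.Agent.Lib.MP_a05470_co.T5.S_1_12_0
import Pool.Agent.Lib.MP_a05470_co.T5.S_0_14_0
import Pool.Agent.Lib.MP_a05470_co.T5.S_3_8_1
import Pool.Agent.Lib.MP_a05470_co.T5.S_2_10_1
import Pool.Agent.Lib.MP_a05470_co.T5.S_1_12_1
import Pool.Agent.Lib.MP_a05470_co.T5.S_1_11_0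
import Pool.Agent.Lib.MP_a05470_co.T5.S_0_13_0
import Pool.Agent.Lib.MP_a05470_co.T5.S_0_12_0
import Pool.Agent.Lib.MP_a05470_co.T5.S_4_6_0
import Pool.Agent.Lib.MP_a05470_co.T5.S_4_6_1
import Pool.Agent.Lib.MP_a05470_co.T5.S_1_11_1
import Pool.Agent.Lib.MP_a05470_co.T5.S_2_10_2
import Pool.Agent.Lib.MP_a05470_co.T5.S_0_11_0
import Pool.Agent.Lib.MP_a05470_co.T5.S_0_10_0
import Pool.Agent.Lib.MP_a05470_co.T5.S_0_9_0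
import Pool.Agent.Lib.MP_a05470_co.T5.S_0_8_0
import Pool.Agent.Lib.MP_a05470_co.T5.S_0_7_0
import Pool.Agent.Lib.MP_a05470_co.T5.S_0_6_0
import Pool.Agent.Lib.MP_a05470_co.T5.S_0_5_0
import Pool.Agent.Lib.MP_a05470_co.T5.S_0_4_0
import Pool.Agent.Lib.MP_a05470_co.T5.S_0_3_0
import Pool.Agent.Lib.MP_a05470_co.T5.S_0_2_0
import Pool.Agent.Lib.MP_a05470_co.T5.S_0_1_0

/-!
# The chain of the certificates
-/

set_option autoImplicit false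

namespace Pool.Agent.Lib.MP_a05470_co.T5

open Finset Classical Pool.Agent.Lib.MP_a05470_co.Frontier

variable {W : Type} [Fintype W] {Gr Gb : SimpleGraph W}

/-- the chain: the facts at the start lead to a contradiction -/
theorem chain (hdeg : ∀ v : W, 3 * nonadj Gr v + 6 * nonadj Gb v < Fintype.card W)
    (a5 : NoZ Gr Gb (5, 5, 99)) (a4 : NoZ Gr Gb (4, 7, 99)) (a3 : NoZ Gr Gb (3, 9, 99))
    (a2 : NoZ Gr Gb (2, 11, 99)) (a1 : NoZ Gr Gb (1, 13, 99)) (a0 : NoZ Gr Gb (0, 15, 99)) :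
    NoZ Gr Gb (0, 1, 0) := by
  have s_3_8_0 : NoZ Gr Gb (3, 8, 0) := S_3_8_0.st hdeg (fc a5 (fc a3 (fc a0 (fc a1 (fc a2 (fc a4 fn))))))
  have s_2_10_0 : NoZ Gr Gb (2, 10, 0) := S_2_10_0.st hdeg (fc a5 (fc a2 (fc a0 (fc a1 (fc a3 (fc s_3_8_0 (fc a4 fn)))))))
  have s_1_12_0 : NoZ Gr Gb (1, 12, 0) := S_1_12_0.st hdeg (fc a5 (fc a1 (fc a0 (fc a2 (fc s_2_10_0 (fc a3 (fc s_3_8_0 (fc a4 fn))))))))
  have s_0_14_0 : NoZ Gr Gb (0, 14, 0) := S_0_14_0.st hdeg (fc a5 (fc a0 (fc a1 (fc s_1_12_0 (fc a2 (fc s_2_10_0 (fc a3 (fc s_3_8_0 (fc a4 fn)))))))))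
  have s_0_14_0' : NoZ Gr Gb (0, 14, 99) := s_0_14_0.any 99
  have s_3_8_1 : NoZ Gr Gb (3, 8, 1) := S_3_8_1.st hdeg (fc a5 (fc a3 (fc s_3_8_0 (fc s_0_14_0' (fc a1 (fc s_1_12_0 (fc a2 (fc s_2_10_0 (fc a4 fn)))))))))
  have s_2_10_1 : NoZ Gr Gb (2, 10, 1) := S_2_10_1.st hdeg (fc a5 (fc a2 (fc s_2_10_0 (fc s_0_14_0' (fc a1 (fc s_1_12_0 (fc a3 (fc s_3_8_1 (fc a4 fn)))))))))
  have s_1_12_1 : NoZ Gr Gb (1, 12, 1) := S_1_12_1.st hdeg (fc a5 (fc a1 (fc s_1_12_0 (fc s_0_14_0' (fc a2 (fc s_2_10_1 (fc a3 (fc s_3_8_1 (fc a4 fn)))))))))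
  have s_1_12_1' : NoZ Gr Gb (1, 12, 99) := s_1_12_1.any 99
  have s_1_11_0 : NoZ Gr Gb (1, 11, 0) := S_1_11_0.st hdeg (fc a5 (fc s_1_12_1' (fc s_0_14_0' (fc a2 (fc s_2_10_1 (fc a3 (fc s_3_8_1 (fc a4 fn))))))))
  have s_0_13_0 : NoZ Gr Gb (0, 13, 0) := S_0_13_0.st hdeg (fc a5 (fc s_0_14_0' (fc s_1_12_1' (fc s_1_11_0 (fc a2 (fc s_2_10_1 (fc a3 (fc s_3_8_1 (fc a4 fn)))))))))
  have s_0_13_0' : NoZ Gr Gb (0, 13, 99) := s_0_13_0.any 99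
  have s_0_12_0 : NoZ Gr Gb (0, 12, 0) := S_0_12_0.st hdeg (fc a5 (fc s_0_13_0' (fc s_1_12_1' (fc s_1_11_0 (fc a2 (fc s_2_10_1 (fc a3 (fc s_3_8_1 (fc a4 fn)))))))))
  have s_0_12_0' : NoZ Gr Gb (0, 12, 99) := s_0_12_0.any 99
  have s_4_6_0 : NoZ Gr Gb (4, 6, 0) := S_4_6_0.st hdeg (fc a5 (fc a4 (fc s_0_12_0' (fc s_1_12_1' (fc s_1_11_0 (fc a2 (fc s_2_10_1 (fc a3 (fc s_3_8_1 fn)))))))))
  have s_4_6_1 : NoZ Gr Gb (4, 6, 1) := S_4_6_1.st hdeg (fc a5 (fc a4 (fc s_4_6_0 (fc s_0_12_0' (fc s_1_12_1' (fc s_1_11_0 (fc a2 (fc s_2_10_1 (fc a3 (fc s_3_8_1 fn))))))))))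
  have s_1_11_1 : NoZ Gr Gb (1, 11, 1) := S_1_11_1.st hdeg (fc a5 (fc s_1_12_1' (fc s_1_11_0 (fc s_0_12_0' (fc a2 (fc s_2_10_1 (fc a3 (fc s_3_8_1 (fc a4 (fc s_4_6_1 fn))))))))))
  have s_1_11_1' : NoZ Gr Gb (1, 11, 99) := s_1_11_1.any 99
  have s_2_10_2 : NoZ Gr Gb (2, 10, 2) := S_2_10_2.st hdeg (fc a5 (fc a2 (fc s_2_10_1 (fc s_0_12_0' (fc s_1_11_1' (fc a3 (fc s_3_8_1 (fc a4 (fc s_4_6_1 fn)))))))))
  have s_2_10_2' : NoZ Gr Gb (2, 10, 99) := s_2_10_2.any 99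
  have s_0_11_0 : NoZ Gr Gb (0, 11, 0) := S_0_11_0.st hdeg (fc a5 (fc s_0_12_0' (fc s_1_11_1' (fc s_2_10_2' (fc a3 (fc s_3_8_1 (fc a4 (fc s_4_6_1 fn))))))))
  have s_0_11_0' : NoZ Gr Gb (0, 11, 99) := s_0_11_0.any 99
  have s_0_10_0 : NoZ Gr Gb (0, 10, 0) := S_0_10_0.st hdeg (fc a5 (fc s_0_11_0' (fc a3 (fc a4 fn))))
  have s_0_10_0' : NoZ Gr Gb (0, 10, 99) := s_0_10_0.any 99
  have s_0_9_0 : NoZ Gr Gb (0, 9, 0) := S_0_9_0.st hdeg (fc a5 (fc s_0_10_0' fn))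
  have s_0_9_0' : NoZ Gr Gb (0, 9, 99) := s_0_9_0.any 99
  have s_0_8_0 : NoZ Gr Gb (0, 8, 0) := S_0_8_0.st hdeg (fc a5 (fc s_0_9_0' fn))
  have s_0_8_0' : NoZ Gr Gb (0, 8, 99) := s_0_8_0.any 99
  have s_0_7_0 : NoZ Gr Gb (0, 7, 0) := S_0_7_0.st hdeg (fc a5 (fc s_0_8_0' fn))
  have s_0_7_0' : NoZ Gr Gb (0, 7, 99) := s_0_7_0.any 99
  have s_0_6_0 : NoZ Gr Gb (0, 6, 0) := S_0_6_0.st hdeg (fc a5 (fc s_0_7_0' fn))
  have s_0_6_0' : NoZ Gr Gb (0, 6, 99) := s_0_6_0.any 99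
  have s_0_5_0 : NoZ Gr Gb (0, 5, 0) := S_0_5_0.st hdeg (fc a5 (fc s_0_6_0' fn))
  have s_0_5_0' : NoZ Gr Gb (0, 5, 99) := s_0_5_0.any 99
  have s_0_4_0 : NoZ Gr Gb (0, 4, 0) := S_0_4_0.st hdeg (fc a5 (fc s_0_5_0' fn))
  have s_0_4_0' : NoZ Gr Gb (0, 4, 99) := s_0_4_0.any 99
  have s_0_3_0 : NoZ Gr Gb (0, 3, 0) := S_0_3_0.st hdeg (fc a5 (fc s_0_4_0' fn))
  have s_0_3_0' : NoZ Gr Gb (0, 3, 99) := s_0_3_0.any 99
  have s_0_2_0 : NoZ Gr Gb (0, 2, 0) := S_0_2_0.st hdeg (fc a5 (fc s_0_3_0' fn))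
  have s_0_2_0' : NoZ Gr Gb (0, 2, 99) := s_0_2_0.any 99
  have s_0_1_0 : NoZ Gr Gb (0, 1, 0) := S_0_1_0.st hdeg (fc a5 (fc s_0_2_0' fn))
  have s_0_1_0' : NoZ Gr Gb (0, 1, 99) := s_0_1_0.any 99
  exact s_0_1_0

/-- no nonempty pair of graphs with small weighted numbers of non-adjacencies is free of two
cliques of order `5` -/
theorem exists_Z5 {n : ℕ} {Gr Gb : SimpleGraph (Fin n)} {ε : ℝ} (hε : 0 < ε) (hn : 0 < n)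
    (hdeg : ∀ v, 3 * (nonadj Gr v : ℝ) + 6 * nonadj Gb v ≤ (1 - ε) * n) :
    ∃ L K : Finset (Fin n), ZS Gr Gb L K ∧ L.card = 5 ∧ K.card = 5 := by
  by_contra hno
  have hcaps := initCaps hε hn hdeg hno
  have hdeg' : ∀ v : Fin n, 3 * nonadj Gr v + 6 * nonadj Gb v < Fintype.card (Fin n) := by
    intro v
    have h1 := hdeg v
    have hnR : (0 : ℝ) < n := by exact_mod_cast hn
    have h2 : (3 * (nonadj Gr v : ℝ) + 6 * nonadj Gb v) < n := by nlinarith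
    rw [Fintype.card_fin]
    exact_mod_cast h2
  have key : ∀ l q : ℕ, l ≤ 4 → q + 2 * l = 15 → NoZ Gr Gb (l, q, 99) := by
    intro l q hl hq L K hZ h1 h2 _
    obtain ⟨L', hL', hc⟩ := Finset.exists_subset_card_eq (show l ≤ L.card from h1)
    have h3 := hcaps l (by omega) L' K (hZ.mono hL' (Finset.Subset.refl K)) hc
    have h4 : q ≤ K.card := h2
    omega
  have h5 : NoZ Gr Gb (5, 5, 99) := by
    intro L K hZ h1 h2 _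
    obtain ⟨L', hL', hc⟩ := Finset.exists_subset_card_eq (show 5 ≤ L.card from h1)
    obtain ⟨K', hK', hc'⟩ := Finset.exists_subset_card_eq (show 5 ≤ K.card from h2)
    exact hno ⟨L', K', hZ.mono hL' hK', hc, hc'⟩
  have hfin := chain hdeg' h5 (key 4 7 (by norm_num) (by norm_num))
    (key 3 9 (by norm_num) (by norm_num)) (key 2 11 (by norm_num) (by norm_num))
    (key 1 13 (by norm_num) (by norm_num)) (key 0 15 (by norm_num) (by norm_num))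
  refine hfin ∅ {⟨0, hn⟩} ?_ (by simp) (by simp) ?_
  · constructor
    · intro x hx
      simp at hx
    · intro x hx y hy hxy
      rw [Finset.mem_singleton] at hx hy
      exact absurd (hx.trans hy.symm) hxy
    · intro x hx
      simp at hx
    · intro x hx
      simp at hx
    · intro y _ x hx
      simp at hx
  · unfold M
    simp

end Pool.Agent.Lib.MP_a05470_co.T5
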