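import Pool.Agent.Lib.MP_a05470_co.T5.Tree

/-!
# Soundness of the checker: the complete check
-/

set_option autoImplicit false

namespace Pool.Agent.Lib.MP_a05470_co.T5

open Finset Classical Pool.Agent.Lib.MP_a05470_co.Frontier

variable {W : Type} {Gr Gb : SimpleGraph W}

theorem beq_false {a b : ℕ} (h : a ≠ b) : Nat.beq a b = false := by
  by_contra hc
  exact h (beq_iff.1 (by simpa using hc))

theorem ble_false {a b : ℕ} (h : ¬ a ≤ b) : Nat.ble a b = false := by
  by_contra hc
  exact h (ble_iff.1 (by simpa using hc))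

theorem lo_sound {w v : ℕ} (f : ℕ) : ∀ {m : ℕ}, lo w v f m = true → ∀ i, m.testBit i = true →
    v ≤ cst w i := by
  induction f with
  | zero =>
    intro m h i hi
    have h1 : lo w v 0 m = Nat.beq m 0 := rfl
    rw [h1, beq_iff] at h
    rw [h, Nat.zero_testBit] at hi
    exact absurd hi (by simp)
  | succ f ih =>
    intro m h i hi
    have h1 : lo w v (f + 1) m = (bif Nat.beq m 0 then true else
      Nat.ble v (cst w (Nat.log2 m)) && lo w v f (Nat.xor m (Nat.pow 2 (Nat.log2 m)))) := rfl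
    rw [h1] at h
    have hm : m ≠ 0 := by
      rintro rfl
      rw [Nat.zero_testBit] at hi
      exact absurd hi (by simp)
    rw [beq_false hm, cond_false, Bool.and_eq_true, ble_iff] at h
    by_cases hi2 : Nat.log2 m = i
    · rw [← hi2]
      exact h.1
    · apply ih h.2
      rw [xor_testBit, pow_testBit, hi]
      simp [hi2]

theorem cc_mem {w full : ℕ} (ca : List (ℕ × ℕ)) : ∀ {v acc : ℕ}, cc w ca v full acc = true →
    ∀ k, full.testBit k = true → acc.testBit k = false →
      ∃ p ∈ ca, v ≤ p.1 ∧ p.2.testBit k = true ∧ p.1 ≤ cst w k := by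
  induction ca with
  | nil =>
    intro v acc h k hk hacc
    have h1 : cc w [] v full acc = sb full acc := rfl
    rw [h1, sb_iff] at h
    rw [h k hk] at hacc
    exact absurd hacc (by simp)
  | cons p ps ih =>
    intro v acc h k hk hacc
    have h1 : cc w (p :: ps) v full acc = (Nat.ble v p.1 && (lo w p.1 64 p.2 &&
      cc w ps p.1 full (Nat.lor acc p.2))) := rfl
    rw [h1, Bool.and_eq_true, Bool.and_eq_true, ble_iff] at h
    obtain ⟨h2, h3, h4⟩ := h
    by_cases hp : p.2.testBit k = true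
    · exact ⟨p, List.mem_cons_self, h2, hp, lo_sound 64 h3 k hp⟩
    · obtain ⟨q, hq, h5, h6, h7⟩ := ih h4 k hk (by
        rw [lor_testBit, hacc]
        simpa using hp)
      exact ⟨q, List.mem_cons_of_mem _ hq, h2.trans h5, h6, h7⟩

theorem aff_mono {c D : ℕ} (ca : List (ℕ × ℕ)) : ∀ {acc : ℕ} (k : ℕ), acc.testBit k = true →
    (aff c D ca acc).testBit k = true := by
  induction ca with
  | nil => intro acc k hk; exact hk
  | cons p ps ih =>
    intro acc k hk
    have h1 : aff c D (p :: ps) acc = (bif Nat.ble D (Nat.add c p.1) then acc else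
      aff c D ps (Nat.lor acc p.2)) := rfl
    rw [h1]
    cases Nat.ble D (Nat.add c p.1)
    · rw [cond_false]
      apply ih
      rw [lor_testBit, hk]
      rfl
    · rw [cond_true]
      exact hk

theorem aff_sound {w full c D : ℕ} (ca : List (ℕ × ℕ)) : ∀ {v acc acc' : ℕ},
    cc w ca v full acc = true → ∀ k, full.testBit k = true → acc.testBit k = false →
    (aff c D ca acc').testBit k = false → D ≤ c + cst w k := by
  induction ca with
  | nil =>
    intro v acc acc' h k hk hacc _
    have h1 : cc w [] v full acc = sb full acc := rfl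
    rw [h1, sb_iff] at h
    rw [h k hk] at hacc
    exact absurd hacc (by simp)
  | cons p ps ih =>
    intro v acc acc' h k hk hacc haff
    have h0 := h
    have h1 : cc w (p :: ps) v full acc = (Nat.ble v p.1 && (lo w p.1 64 p.2 &&
      cc w ps p.1 full (Nat.lor acc p.2))) := rfl
    rw [h1, Bool.and_eq_true, Bool.and_eq_true, ble_iff] at h
    obtain ⟨h2, h3, h4⟩ := h
    have h5 : aff c D (p :: ps) acc' = (bif Nat.ble D (Nat.add c p.1) then acc' else
      aff c D ps (Nat.lor acc' p.2)) := rfl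
    by_cases h6 : D ≤ c + p.1
    · -- all costs are too large
      by_cases hp : p.2.testBit k = true
      · have := lo_sound 64 h3 k hp
        omega
      · obtain ⟨q, hq, h7, h8, h9⟩ := cc_mem ps h4 k hk (by
          rw [lor_testBit, hacc]
          simpa using hp)
        omega
    · rw [h5, nat_add, ble_false h6, cond_false] at haff
      have hp : p.2.testBit k = false := by
        by_contra hc
        have h7 := aff_mono (c := c) (D := D) ps (acc := Nat.lor acc' p.2) k (by
          rw [lor_testBit]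
          have : p.2.testBit k = true := by simpa using hc
          rw [this]
          simp)
        rw [h7] at haff
        exact absurd haff (by simp)
      apply ih h4 k hk _ haff
      rw [lor_testBit, hacc, hp]
      rfl

/-- the hypotheses of the checks of the tree -/
structure Ctx (Gr Gb : SimpleGraph W) (w D n G : ℕ) (ca : List (ℕ × ℕ)) (tp ln : ℕ)
    (sw : List (ℕ × ℕ)) : Prop where
  hn : n ≤ 19
  cc : cc w ca 0 (cb (Nat.sub (Nat.pow 2 n) 1)) 0 = true
  sy : ∀ p ∈ sw, Sy w n G p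
  tb : ∀ i < ln, Rg n (tb tp i) ∧ NoP Gr Gb n G (tb tp i)

theorem Ctx.sy' {w D n G : ℕ} {ca : List (ℕ × ℕ)} {tp ln : ℕ} {sw : List (ℕ × ℕ)}
    (h : Ctx Gr Gb w D n G ca tp ln sw) (j : ℕ) : Sy w n G (sw.getD j (0, 0)) := by
  by_cases hj : j < sw.length
  · rw [List.getD_eq_getElem _ _ hj]
    exact h.sy _ (List.getElem_mem hj)
  · rw [List.getD_eq_default _ _ (by omega)]
    exact eq_of_bits (VS_zero G)

/-- what the check of the branches yields -/
def GoOK (Gr Gb : SimpleGraph W) (w D n G : ℕ)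
    (k : ℕ → ℕ → ℕ → ℕ → List (ℕ × ℕ) → Bool) : Prop :=
  ∀ a E Y c h, k a E Y c h = true → c = cE w n E →
    Rg n a → (∀ i, a.testBit i = true → E.testBit i = false) →
    (∀ q ∈ h, Bad Gr Gb w D n G (Nat.lor E q.1) q.2) → NoP Gr Gb n G (Nat.lor a Y) →
    Bad Gr Gb w D n G E Y

theorem NoP.mono {n G P P' : ℕ} (h : NoP Gr Gb n G P)
    (hP : ∀ k, P.testBit k = true → P'.testBit k = true) : NoP Gr Gb n G P' := by
  intro φ u hφ hu
  apply h φ u hφ
  intro j hj
  exact ⟨fun hb => (hu j hj).1 (hP _ hb), fun hb => (hu j hj).2 (hP _ hb)⟩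

theorem en_sound {w D n G : ℕ} {ca : List (ℕ × ℕ)} {tp ln : ℕ} {sw : List (ℕ × ℕ)}
    (H : Ctx Gr Gb w D n G ca tp ln sw) {k : ℕ → ℕ → ℕ → ℕ → List (ℕ × ℕ) → Bool}
    (hk : GoOK Gr Gb w D n G k) {E Y c P : ℕ} (h : en ca D k E Y c P = true) (hc : c = cE w n E)
    (hR : Rg n P) (hP : NoP Gr Gb n G P) : Bad Gr Gb w D n G E Y := by
  have hn := H.hn
  have h0 : en ca D k E Y c P = (dj P E && k (Nat.land (mn P Y) (aff c D ca 0)) E
    (Nat.lor Y (Nat.xor (mn P Y) (Nat.land (mn P Y) (aff c D ca 0)))) c []) := rfl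
  rw [h0, Bool.and_eq_true, dj_iff] at h
  obtain ⟨h1, h2⟩ := h
  have h3 := hk _ _ _ _ _ h2 hc (by
      intro i hi
      rw [land_testBit, mn_testBit, Bool.and_eq_true, Bool.and_eq_true] at hi
      exact hR i hi.1.1) (by
      intro i hi
      rw [land_testBit, mn_testBit, Bool.and_eq_true, Bool.and_eq_true] at hi
      exact h1 i hi.1.1) (by
      intro q hq
      simp at hq) (by
      apply hP.mono
      intro i hi
      rw [lor_testBit, lor_testBit, xor_testBit, land_testBit, mn_testBit, hi]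
      cases Y.testBit i <;> cases (aff c D ca 0).testBit i <;> rfl)
  intro φ u hφ ht hs
  apply h3 φ u hφ ht
  intro a ha j hj
  refine ⟨(hs a ha j hj).1, ?_⟩
  intro hb
  rw [lor_testBit, Bool.or_eq_true] at hb
  rcases hb with hb | hb
  · exact (hs a ha j hj).2 hb
  · rw [xor_testBit, land_testBit, mn_testBit] at hb
    have hPk : P.testBit (32 * a + j) = true := by
      by_contra hc
      have hc' : P.testBit (32 * a + j) = false := by simpa using hc
      rw [hc'] at hb
      exact absurd hb (by simp)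
    have haff : (aff c D ca 0).testBit (32 * a + j) = false := by
      by_contra hc
      have hc' : (aff c D ca 0).testBit (32 * a + j) = true := by simpa using hc
      rw [hc', Bool.and_true, Bool.xor_self] at hb
      exact absurd hb (by simp)
    by_contra hA
    have h4 := aff_sound ca H.cc (32 * a + j) ((rg_full _).2 ⟨a, ha, j, hj, rfl⟩)
      (Nat.zero_testBit _) haff
    have hEk := h1 _ hPk
    have h5 := cE_insert (w := w) (by omega) ha hj hEk
    have h6 : cE w n (Nat.lor E (Nat.pow 2 (32 * a + j))) ≤ tot Gr Gb w n φ u := by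
      apply cE_le
      intro a' ha' j' hj' hb'
      rw [lor_testBit, pow_testBit, Bool.or_eq_true, decide_eq_true_eq] at hb'
      rcases hb' with hb' | hb'
      · exact (hs a' ha' j' hj').1 hb'
      · have : a = a' ∧ j = j' := by omega
        rw [← this.1, ← this.2]
        exact hA
    omega

theorem step_sound {w D n G : ℕ} (hn : n ≤ 19)
    {k : ℕ → ℕ → ℕ → ℕ → List (ℕ × ℕ) → Bool}
    (hk : GoOK Gr Gb w D n G k) {a E Y c : ℕ} {h : List (ℕ × ℕ)} (ha : a ≠ 0)
    (hg : k (Nat.xor a (Nat.pow 2 (Nat.log2 a))) E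
        (Nat.lor Y (Nat.pow 2 (Nat.log2 a))) c ((Nat.pow 2 (Nat.log2 a), Y) :: h) = true)
    (hc : c = cE w n E) (hR : Rg n a) (hE : ∀ i, a.testBit i = true → E.testBit i = false)
    (hh : ∀ q ∈ h, Bad Gr Gb w D n G (Nat.lor E q.1) q.2) (hP : NoP Gr Gb n G (Nat.lor a Y))
    (hb : Bad Gr Gb w D n G (Nat.lor E (Nat.pow 2 (Nat.log2 a))) Y) :
    Bad Gr Gb w D n G E Y := by
  have hmem := log2_mem ha
  have hx : ∀ i, (Nat.xor a (Nat.pow 2 (Nat.log2 a))).testBit i = true ↔
      (a.testBit i = true ∧ i ≠ Nat.log2 a) := by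
    intro i
    rw [xor_testBit, pow_testBit]
    by_cases hi : Nat.log2 a = i
    · rw [← hi, hmem]
      simp
    · have : i ≠ Nat.log2 a := fun e => hi e.symm
      simp [hi, this]
  have h3 := hk _ _ _ _ _ hg hc (by
      intro i hi
      exact hR i ((hx i).1 hi).1) (by
      intro i hi
      exact hE i ((hx i).1 hi).1) (by
      intro q hq
      rcases List.mem_cons.1 hq with rfl | hq
      · exact hb
      · exact hh q hq) (by
      apply hP.mono
      intro i hi
      rw [lor_testBit, Bool.or_eq_true] at hi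
      rw [lor_testBit, lor_testBit, Bool.or_eq_true, Bool.or_eq_true, hx, pow_testBit,
        decide_eq_true_eq]
      rcases hi with hi | hi
      · by_cases h : i = Nat.log2 a
        · right; right
          exact h.symm
        · left
          exact ⟨hi, h⟩
      · right; left
        exact hi)
  intro φ u hφ ht hs
  obtain ⟨a0, ha0, j0, hj0, hk0⟩ := hR _ hmem
  by_cases hA : Aj Gr Gb φ u a0 j0
  · apply h3 φ u hφ ht
    intro a' ha' j' hj'
    refine ⟨(hs a' ha' j' hj').1, ?_⟩
    intro hb'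
    rw [lor_testBit, pow_testBit, Bool.or_eq_true, decide_eq_true_eq] at hb'
    rcases hb' with hb' | hb'
    · exact (hs a' ha' j' hj').2 hb'
    · have : a0 = a' ∧ j0 = j' := by omega
      rw [← this.1, ← this.2]
      exact hA
  · apply hb φ u hφ ht
    intro a' ha' j' hj'
    refine ⟨?_, (hs a' ha' j' hj').2⟩
    intro hb'
    rw [lor_testBit, pow_testBit, Bool.or_eq_true, decide_eq_true_eq] at hb'
    rcases hb' with hb' | hb'
    · exact (hs a' ha' j' hj').1 hb'
    · have : a0 = a' ∧ j0 = j' := by omega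
      rw [← this.1, ← this.2]
      exact hA

theorem go_sound {w D n G : ℕ} {ca : List (ℕ × ℕ)} {tp ln : ℕ} {sw : List (ℕ × ℕ)}
    (H : Ctx Gr Gb w D n G ca tp ln sw) (t : T) : GoOK Gr Gb w D n G (go tp ln sw w ca D t) := by
  have hn := H.hn
  induction t with
  | n =>
    intro a E Y c h hg _ _ _ _ hP
    have h1 : go tp ln sw w ca D T.n a E Y c h = Nat.beq a 0 := rfl
    rw [h1, beq_iff] at hg
    subst hg
    intro φ u hφ _ hs
    apply hP φ u hφ
    apply hs.att
    intro k hk
    rw [lor_testBit, Nat.zero_testBit, Bool.false_or] at hk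
    exact hk
  | s i ch rs ih1 ih2 =>
    intro a E Y c h hg hc hR hE hh hP
    have h1 : go tp ln sw w ca D (T.s i ch rs) a E Y c h = (bif Nat.beq a 0 then false else
      (Nat.ble (Nat.add i 1) ln &&
      en ca D (go tp ln sw w ca D ch) (Nat.lor E (Nat.pow 2 (Nat.log2 a))) Y
        (Nat.add c (cst w (Nat.log2 a))) (tb tp i)) &&
      go tp ln sw w ca D rs (Nat.xor a (Nat.pow 2 (Nat.log2 a))) E
        (Nat.lor Y (Nat.pow 2 (Nat.log2 a))) c ((Nat.pow 2 (Nat.log2 a), Y) :: h)) := rfl
    rw [h1] at hg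
    have ha : a ≠ 0 := by
      rintro rfl
      have : Nat.beq 0 0 = true := rfl
      rw [this, cond_true] at hg
      exact absurd hg (by simp)
    rw [beq_false ha, cond_false, Bool.and_eq_true, Bool.and_eq_true, ble_iff] at hg
    obtain ⟨⟨h2, h3⟩, h4⟩ := hg
    have hmem := log2_mem ha
    obtain ⟨a0, ha0, j0, hj0, hk0⟩ := hR _ hmem
    have hb : Bad Gr Gb w D n G (Nat.lor E (Nat.pow 2 (Nat.log2 a))) Y := by
      apply en_sound H ih1 h3
      · rw [nat_add, hk0, cE_insert (by omega) ha0 hj0 (by rw [← hk0]; exact hE _ hmem), ← hc]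
      · exact (H.tb i (by rw [nat_add] at h2; omega)).1
      · exact (H.tb i (by rw [nat_add] at h2; omega)).2
    exact step_sound hn ih2 ha h4 hc hR hE hh hP hb
  | y k j rs ih =>
    intro a E Y c h hg hc hR hE hh hP
    have h1 : go tp ln sw w ca D (T.y k j rs) a E Y c h = (bif Nat.beq a 0 then false else
      eq1 E Y (Nat.pow 2 (Nat.log2 a)) (sw.getD j (0, 0)) (h.getD k (0, 0)) &&
      go tp ln sw w ca D rs (Nat.xor a (Nat.pow 2 (Nat.log2 a))) E
        (Nat.lor Y (Nat.pow 2 (Nat.log2 a))) c ((Nat.pow 2 (Nat.log2 a), Y) :: h)) := rfl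
    rw [h1] at hg
    have ha : a ≠ 0 := by
      rintro rfl
      have : Nat.beq 0 0 = true := rfl
      rw [this, cond_true] at hg
      exact absurd hg (by simp)
    rw [beq_false ha, cond_false, Bool.and_eq_true] at hg
    obtain ⟨h2, h4⟩ := hg
    have hb : Bad Gr Gb w D n G (Nat.lor E (Nat.pow 2 (Nat.log2 a))) Y := by
      apply (H.sy' j).bad (by omega) _ h2
      by_cases hk : k < h.length
      · apply hh
        rw [List.getD_eq_getElem _ _ hk]
        exact List.getElem_mem hk
      · exfalso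
        have e : h.getD k (0, 0) = (0, 0) := List.getD_eq_default _ _ (by omega)
        rw [e] at h2
        unfold eq1 at h2
        rw [Bool.and_eq_true, ble_iff] at h2
        have := h2.1
        simp at this
    exact step_sound hn ih ha h4 hc hR hE hh hP hb

theorem ct_sound {tp : ℕ} {f : Wt → Bool} (xs : List Wt) : ∀ {i0 : ℕ}, ct tp f xs i0 = true →
    ∀ i < xs.length, ∃ x : Wt, f x = true ∧ tb tp (i0 + i) = x.P := by
  induction xs with
  | nil => intro i0 _ i hi; simp at hi
  | cons x xs ih =>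
    intro i0 h i hi
    have h1 : ct tp f (x :: xs) i0 = (f x && (Nat.beq (tb tp i0) x.P &&
      ct tp f xs (Nat.add i0 1))) := rfl
    rw [h1, Bool.and_eq_true, Bool.and_eq_true, beq_iff, nat_add] at h
    cases i with
    | zero => exact ⟨x, h.1, h.2.1⟩
    | succ i =>
      obtain ⟨y, h2, h3⟩ := ih h.2.2 i (by simpa using hi)
      refine ⟨y, h2, ?_⟩
      rw [← h3]
      congr 1
      ring

theorem rg_of_lt {n K : ℕ} (h : K < 2 ^ n) : ∀ k, K.testBit k = true → k < n := by
  intro k hk
  by_contra hc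
  rw [Nat.testBit_lt_two_pow (lt_of_lt_of_le h (Nat.pow_le_pow_right (by norm_num)
    (by omega)))] at hk
  exact absurd hk (by simp)

/-- the range of the adjacencies of a witness -/
theorem wc_rg {n G : ℕ} {F : List (ℕ × ℕ × ℕ)} {deps : List (ℕ × ℕ)} (x : Wt)
    (h : wc n G F deps x = true) : Rg n x.P := by
  cases x with
  | z L K pt ps ci =>
    have h1 : wc n G F deps (.z L K pt ps ci) = ((Nat.ble (Nat.add L 1) (Nat.pow 2 n) &&
      (Nat.ble (Nat.add K 1) (Nat.pow 2 n) &&
      (dj L K && (sb pt K && (ob pt && mo ps L (Nat.xor K pt)))))) &&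
      zc G L K (nm ps) (sp L) (sp K) (F.getD ci (99, 99, 0))
        (Nat.add ps.length (bif Nat.beq pt 0 then 0 else 1))) := rfl
    rw [h1, Bool.and_eq_true, Bool.and_eq_true, Bool.and_eq_true, ble_iff, ble_iff] at h
    rw [nat_add, nat_add, nat_pow] at h
    have hL := rg_of_lt (show L < 2 ^ n by omega)
    have hK := rg_of_lt (show K < 2 ^ n by omega)
    intro k hk
    have h2 : (Wt.z L K pt ps ci).P = Nat.lor K (Nat.shiftLeft (Nat.lor L (mn K pt)) 32) := rfl
    rw [h2, lor_testBit, shl_testBit, lor_testBit, mn_testBit, Bool.or_eq_true, Bool.and_eq_true,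
      Bool.or_eq_true, Bool.and_eq_true, decide_eq_true_eq] at hk
    rcases hk with hk | ⟨hk1, hk | ⟨hk, _⟩⟩
    · exact ⟨0, by norm_num, k, hK k hk, by omega⟩
    · exact ⟨1, by norm_num, k - 32, hL _ hk, by omega⟩
    · exact ⟨1, by norm_num, k - 32, hK _ hk, by omega⟩
  | r d P xs =>
    have h1 : wc n G F deps (.r d P xs) = ((sb P (cb (Nat.sub (Nat.pow 2 n) 1)) &&
      Nat.ble (deps.getD d (99, 0)).1 (Nat.add n 1)) &&
      sb (deps.getD d (99, 0)).2 (VL xs (ext n G P)) && wc.swv (Nat.add n 1) xs) := rfl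
    rw [h1, Bool.and_eq_true, Bool.and_eq_true, Bool.and_eq_true, sb_iff] at h
    intro k hk
    exact (rg_full k).1 (h.1.1.1 k hk)

theorem wc_sound {n G : ℕ} (hn : n ≤ 19)
    (hGr : ∀ i j, G.testBit (64 * i + j) = true → j < 64 → i < n ∧ j < 32 + n ∧ (j < n ∨ 32 ≤ j))
    {F : List (ℕ × ℕ × ℕ)} (hF : ∀ f ∈ F, NoZ Gr Gb f) {deps : List (ℕ × ℕ)}
    (hd : ∀ p ∈ deps, NoC Gr Gb p) (x : Wt) (h : wc n G F deps x = true) :
    NoP Gr Gb n G x.P := by
  cases x with
  | z L K pt ps ci =>
    intro φ u hφ hu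
    exact z_sound hn hφ hF h hu
  | r d P xs =>
    intro φ u hφ hu
    exact r_sound hn hφ hGr hd h hu

/-- the sum of the weights -/
theorem tw_eq (w n : ℕ) : tw w n = ∑ i ∈ range n, wt w i := by
  induction n with
  | zero => rfl
  | succ n ih =>
    rw [Finset.sum_range_succ, ← ih]
    have : tw w (n + 1) = Nat.add (wt w n) (tw w n) := rfl
    rw [this, nat_add, Nat.add_comm]

theorem cst_zero {w j : ℕ} (hj : j < 32) : cst w (32 * 0 + j) = 3 * wt w j := by
  unfold cst
  rw [ble_false (by omega), cond_false, nat_mul, Nat.mul_zero, Nat.zero_add]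

theorem cst_one {w j : ℕ} : cst w (32 * 1 + j) = 6 * wt w j := by
  unfold cst
  rw [ble_iff.2 (by omega : 32 ≤ 32 * 1 + j), cond_true, nat_mul, nat_sub]
  congr 2
  omega

variable [Fintype W]

/-- the average of the weights of the non-adjacencies -/
theorem exists_tot {w n D : ℕ} (hn : n ≤ 32)
    (hdeg : ∀ v : W, 3 * nonadj Gr v + 6 * nonadj Gb v < Fintype.card W) (φ : ℕ → W)
    (hD : tw w n = D) (hD1 : 1 ≤ D) : ∃ u : W, tot Gr Gb w n φ u < D := by
  by_contra hc
  push Not at hc
  have h1 : ∑ u : W, D ≤ ∑ u : W, tot Gr Gb w n φ u := Finset.sum_le_sum (fun u _ => hc u)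
  rw [Finset.sum_const, Finset.card_univ, smul_eq_mul] at h1
  have h2 : ∀ j ∈ range n, ∀ a < 2, ∑ u : W, (if Aj Gr Gb φ u a j then 0 else cst w (32 * a + j)) =
      wt w j * (if a = 0 then 3 * nonadj Gr (φ j) else 6 * nonadj Gb (φ j)) := by
    intro j hj a ha
    rw [mem_range] at hj
    have : a = 0 ∨ a = 1 := by omega
    rcases this with rfl | rfl
    · rw [cst_zero (by omega), if_pos rfl]
      unfold Aj nonadj
      rw [Finset.card_filter, Finset.mul_sum, Finset.mul_sum]
      apply Finset.sum_congr rfl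
      intro u _
      rw [if_pos rfl]
      by_cases h : Gr.Adj u (φ j)
      · rw [if_pos h, if_neg (by simpa using h.symm)]
        rfl
      · rw [if_neg h, if_pos (fun h' => h h'.symm)]
        ring
    · have hne : ¬ ((1 : ℕ) = 0) := by norm_num
      rw [cst_one, if_neg hne]
      unfold Aj nonadj
      rw [Finset.card_filter, Finset.mul_sum, Finset.mul_sum]
      apply Finset.sum_congr rfl
      intro u _
      rw [if_neg hne]
      by_cases h : Gb.Adj u (φ j)
      · rw [if_pos h, if_neg (by simpa using h.symm)]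
        rfl
      · rw [if_neg h, if_pos (fun h' => h h'.symm)]
        ring
  have h3 : ∑ u : W, tot Gr Gb w n φ u = ∑ j ∈ range n, wt w j *
      (3 * nonadj Gr (φ j) + 6 * nonadj Gb (φ j)) := by
    unfold tot
    rw [Finset.sum_comm]
    rw [Finset.sum_range_succ, Finset.sum_range_succ, Finset.sum_range_zero, zero_add]
    rw [Finset.sum_comm, Finset.sum_comm (s := univ), ← Finset.sum_add_distrib]
    apply Finset.sum_congr rfl
    intro j hj
    rw [h2 j hj 0 (by norm_num), h2 j hj 1 (by norm_num), if_pos rfl, if_neg (by norm_num)]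
    ring
  rw [h3] at h1
  have h4 : ∑ j ∈ range n, wt w j * (3 * nonadj Gr (φ j) + 6 * nonadj Gb (φ j)) <
      ∑ j ∈ range n, wt w j * Fintype.card W := by
    apply Finset.sum_lt_sum
    · intro j _
      exact Nat.mul_le_mul_left _ (hdeg _).le
    · by_contra hcc
      push Not at hcc
      have h5 : ∀ j ∈ range n, wt w j = 0 := by
        intro j hj
        by_contra h6
        have h7 := hcc j hj
        have h8 := hdeg (φ j)
        have h9 := Nat.mul_lt_mul_of_pos_left h8 (Nat.pos_of_ne_zero h6)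
        omega
      rw [tw_eq, Finset.sum_eq_zero h5] at hD
      omega
  rw [← Finset.sum_mul, ← tw_eq, hD] at h4
  rw [Nat.mul_comm] at h1
  omega

theorem m64_land {n : ℕ} (hn : n ≤ 20) :
    Nat.land m64 (Nat.sub (Nat.pow 2 (Nat.mul 64 n)) 1) = rep 64 n := by
  apply Nat.eq_of_testBit_eq
  intro q
  have h := mul_rep_testBit (s := 64) (a := 1) (by norm_num) (by norm_num) n q
  rw [one_mul] at h
  have h1 : Nat.testBit 1 (q % 64) = (Nat.pow 2 0).testBit (q % 64) := rfl
  rw [h, h1, pow_testBit, land_testBit, m64_testBit, nat_sub, nat_pow, nat_mul,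
    Nat.testBit_two_pow_sub_one]
  by_cases h2 : q % 64 = 0
  · by_cases h3 : q / 64 < n
    · have h4 : q / 64 < 20 := by omega
      have h5 : q < 64 * n := by omega
      simp [h2, h3, h4, h5]
    · have h5 : ¬ q < 64 * n := by omega
      simp [h3, h5]
  · have h6 : ¬ 0 = q % 64 := fun e => h2 e.symm
    simp [h2, h6]

/-- the soundness of the check -/
theorem chk_sound (hdeg : ∀ v : W, 3 * nonadj Gr v + 6 * nonadj Gb v < Fintype.card W)
    {F : List (ℕ × ℕ × ℕ)} (hF : ∀ f ∈ F, NoZ Gr Gb f) {deps : List (ℕ × ℕ)}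
    (hd : ∀ p ∈ deps, NoC Gr Gb p) {n G : ℕ} {e : En} (h : chk F deps n G e = true) :
    NoC Gr Gb (n, G) := by
  unfold chk chk0 at h
  simp only [Bool.and_eq_true] at h
  obtain ⟨⟨h1, h2, h3, h4, h5⟩, h6, h7, h8, h9⟩ := h
  rw [ble_iff] at h1 h2 h8
  rw [beq_iff] at h3
  have hGr : ∀ i j, G.testBit (64 * i + j) = true → j < 64 →
      i < n ∧ j < 32 + n ∧ (j < n ∨ 32 ≤ j) := by
    intro i j hb hj
    rw [sb_iff] at h5
    have hb' := h5 _ hb
    have hful : cb (Nat.sub (Nat.pow 2 n) 1) < 2 ^ 64 := by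
      apply cb_lt
      rw [nat_sub, nat_pow]
      have : 2 ^ n ≤ 2 ^ 19 := Nat.pow_le_pow_right (by norm_num) h1
      omega
    have e1 : Nat.mul (cb (Nat.sub (Nat.pow 2 n) 1))
        (Nat.land m64 (Nat.sub (Nat.pow 2 (Nat.mul 64 n)) 1)) =
        cb (Nat.sub (Nat.pow 2 n) 1) * rep 64 n := by
      rw [m64_land (by omega)]
      rfl
    rw [e1, mul_rep_testBit (by norm_num) hful, Bool.and_eq_true, decide_eq_true_eq, rg_full] at hb'
    obtain ⟨h10, a, ha, j', hj', h11⟩ := hb'
    have h12 : (64 * i + j) / 64 = i := by omega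
    have h13 : (64 * i + j) % 64 = j := by omega
    rw [h12] at h10
    rw [h13] at h11
    have : a = 0 ∨ a = 1 := by omega
    rcases this with rfl | rfl <;> omega
  have hctx : Ctx Gr Gb e.w e.D n G e.ca e.tp e.tab.length e.sw := by
    refine ⟨h1, h4, ?_, ?_⟩
    · intro p hp
      rw [List.all_eq_true] at h7
      exact sy_of (h7 p hp)
    · intro i hi
      obtain ⟨x, hx1, hx2⟩ := ct_sound _ h6 i hi
      rw [Nat.zero_add] at hx2
      rw [hx2]
      exact ⟨wc_rg x hx1, wc_sound h1 hGr hF hd x hx1⟩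
  intro φ hφ
  obtain ⟨u, hu⟩ := exists_tot (w := e.w) (by omega) hdeg φ h3 h2
  have h10 := hctx.tb e.w0 (by rw [nat_add] at h8; omega)
  have h11 : (0 : ℕ) = cE e.w n 0 := by
    unfold cE
    simp
  exact en_sound hctx (go_sound hctx e.t) h9 h11 h10.1 h10.2 φ u hφ hu (by
    intro a _ j _
    simp)

theorem dn {W : Type} {Gr Gb : SimpleGraph W} : ∀ p ∈ ([] : List (ℕ × ℕ)), NoC Gr Gb p := by
  intro p hp
  simp at hp

theorem dc {W : Type} {Gr Gb : SimpleGraph W} {q : ℕ × ℕ} {ps : List (ℕ × ℕ)}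
    (h : NoC Gr Gb q) (hs : ∀ p ∈ ps, NoC Gr Gb p) : ∀ p ∈ q :: ps, NoC Gr Gb p := by
  intro p hp
  rcases List.mem_cons.1 hp with rfl | hp
  · exact h
  · exact hs p hp

/-- the empty list of facts -/
theorem fn {W : Type} {Gr Gb : SimpleGraph W} : ∀ f ∈ ([] : List (ℕ × ℕ × ℕ)), NoZ Gr Gb f := by
  intro p hp
  simp at hp

/-- one more fact -/
theorem fc {W : Type} {Gr Gb : SimpleGraph W} {q : ℕ × ℕ × ℕ} {ps : List (ℕ × ℕ × ℕ)}
    (h : NoZ Gr Gb q) (hs : ∀ p ∈ ps, NoZ Gr Gb p) : ∀ p ∈ q :: ps, NoZ Gr Gb p := by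
  intro p hp
  rcases List.mem_cons.1 hp with rfl | hp
  · exact h
  · exact hs p hp

end Pool.Agent.Lib.MP_a05470_co.T5
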