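import Mathlib

/-!
# A checker for refutations of small configurations: definitions

A configuration on the vertices `0, ..., n-1` (`n ≤ 19`) is one number `G`: the bit `64 i + j` says
that `i, j` is a red pair, the bit `64 i + 32 + j` says that it is a blue pair. The blue bits on the
diagonal are set as well. A number below `2^64` describes in the same way the red and blue
adjacencies of one more vertex.
-/

set_option autoImplicit false

namespace Pool.Agent.Lib.MP_a05470_co.T5

/-- the sum of `2 ^ (64 i)` for `i < 20` -/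
def m64 : Nat := 1128430269653696552566835992181352588527242500355118046691112274817208713740897050466579251367995631559017128682149329459810587903268909279425437760441239894619596923539357431611068685620251856528705354885024562459303223222390612060711503308574155625289465807803579991189837297447612091850224539411919581394507795705226624113129108076665037749854452615087634979487745

/-- the sum of `2 ^ (63 i)` for `i < 20` -/
def m63 : Nat := 2152309932048218827491776122425460163134047259576577577619110727380717005544183635388239631395950826992247003019274309726347730580778390938257501723570237658158443717792372258775893805793711459429491211111484354288138547251745037247248147295600628268628565647674748743618433454161334008709324347914856665543680319971769009336988767387345626220691663746628583425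

/-- `2 ^ 64 - 1` -/
def f64 : Nat := 18446744073709551615

/-- `2 ^ 32 - 1` -/
def f32 : Nat := 4294967295

/-- the bit `i` of `m` -/
def bt (m i : Nat) : Bool := Nat.beq (Nat.land (Nat.shiftRight m i) 1) 1

/-- disjoint masks -/
def dj (a b : Nat) : Bool := Nat.beq (Nat.land a b) 0

/-- `a` is contained in `b` -/
def sb (a b : Nat) : Bool := Nat.beq (Nat.land a b) a

/-- the difference of two masks -/
def mn (a b : Nat) : Nat := Nat.xor a (Nat.land a b)

/-- at most one bit -/
def ob (a : Nat) : Bool := Nat.beq a 0 || Nat.beq a (Nat.pow 2 (Nat.log2 a))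

/-- spread the bits of `m` -/
def sp (m : Nat) : Nat := Nat.land (Nat.mul m m63) m64

/-- both colours -/
def cb (m : Nat) : Nat := Nat.lor m (Nat.shiftLeft m 32)

/-- a part of the definition of `ds` -/
def ds0 (d x t : Nat) : Nat := Nat.xor (Nat.xor x t) (Nat.shiftLeft t d)

/-- swap the bits `q` and `q + d` for all `q` in `m` -/
def ds (d m x : Nat) : Nat := ds0 d x (Nat.land (Nat.xor (Nat.shiftRight x d) x) m)

/-- swap the vertices `i` and `i + d` for all `i` in `m`, in a number below `2^64` -/
def vs (d m x : Nat) : Nat := ds d (cb m) x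

/-- swap the vertices `i` and `i + d` for all `i` in `m`, in a configuration -/
def VS (d m G : Nat) : Nat :=
  ds (Nat.mul 64 d) (Nat.mul (sp m) f64) (ds d (Nat.mul (cb m) m64) G)

/-- several swaps -/
def VL : List (Nat × Nat) → Nat → Nat
  | [], G => G
  | p :: ps, G => VL ps (VS p.1 p.2 G)

/-- the weight of the vertex `i` -/
def wt (w i : Nat) : Nat := Nat.land (Nat.shiftRight w (Nat.mul 32 i)) f32

/-- the cost of the bit `k` -/
def cst (w k : Nat) : Nat :=
  bif Nat.ble 32 k then Nat.mul 6 (wt w (Nat.sub k 32)) else Nat.mul 3 (wt w k)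

/-- the sum of the weights -/
def tw (w : Nat) : Nat → Nat
  | 0 => 0
  | n + 1 => Nat.add (wt w n) (tw w n)

/-- the bits `k` with `c + cost < D` -/
def aff (c D : Nat) : List (Nat × Nat) → Nat → Nat
  | [], acc => acc
  | p :: ps, acc => bif Nat.ble D (Nat.add c p.1) then acc else aff c D ps (Nat.lor acc p.2)

/-- all bits of `m` have cost at least `v` -/
def lo (w v : Nat) : Nat → Nat → Bool
  | 0, m => Nat.beq m 0
  | f + 1, m => bif Nat.beq m 0 then true else
      Nat.ble v (cst w (Nat.log2 m)) && lo w v f (Nat.xor m (Nat.pow 2 (Nat.log2 m)))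

/-- the check of the cost list -/
def cc (w : Nat) : List (Nat × Nat) → Nat → Nat → Nat → Bool
  | [], _, full, acc => sb full acc
  | p :: ps, v, full, acc =>
    Nat.ble v p.1 && (lo w p.1 64 p.2 && cc w ps p.1 full (Nat.lor acc p.2))

/-- a witness: either two cliques, or a configuration that was refuted before -/
inductive Wt where
  | z (L K pt : Nat) (ps : List (Nat × Nat)) (ci : Nat) : Wt
  | r (d P : Nat) (xs : List (Nat × Nat)) : Wt

/-- the adjacencies that a witness needs -/
def Wt.P : Wt → Nat
  | .z L K pt _ _ => Nat.lor K (Nat.shiftLeft (Nat.lor L (mn K pt)) 32)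
  | .r _ P _ => P

/-- the bits of the pairs of a matching -/
def nm : List (Nat × Nat) → Nat
  | [] => 0
  | p :: ps => Nat.lor (Nat.pow 2 (Nat.add (Nat.mul 64 p.1) (Nat.add 32 p.2))) (nm ps)

/-- the pairs are disjoint, the first components are in `L` and the second ones in `K` -/
def mo : List (Nat × Nat) → Nat → Nat → Bool
  | [], _, _ => true
  | p :: ps, L, K => bt L p.1 && (bt K p.2 &&
      mo ps (Nat.xor L (Nat.pow 2 p.1)) (Nat.xor K (Nat.pow 2 p.2)))

/-- the check of the cardinalities -/
def cd (p q a b : Nat) : Bool := (Nat.ble p a && Nat.ble q b) || (Nat.ble q a && Nat.ble p b)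

/-- the last part of the check of two cliques -/
def zc (G L K N sL sK : Nat) (F : Nat × Nat × Nat) (M : Nat) : Bool :=
  sb (Nat.mul sL (Nat.add (Nat.shiftLeft (Nat.lor L K) 32) K)) (Nat.lor G N) &&
  (sb (Nat.mul sK (Nat.shiftLeft K 32)) G &&
  (Nat.ble M F.2.2 && cd F.1 F.2.1 (Nat.add (Nat.mod sL f64) 1) (Nat.mod sK f64)))

/-- the configuration with one more vertex -/
def ext (n G P : Nat) : Nat :=
  Nat.lor (Nat.lor G (Nat.lor (Nat.shiftLeft P (Nat.mul 64 n))
    (Nat.pow 2 (Nat.add (Nat.mul 65 n) 32))))
  (Nat.lor (Nat.shiftLeft (sp (Nat.land P f32)) n)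
    (Nat.shiftLeft (sp (Nat.shiftRight P 32)) (Nat.add 32 n)))

/-- the check of a witness -/
def wc (n G : Nat) (F : List (Nat × Nat × Nat)) (deps : List (Nat × Nat)) : Wt → Bool
  | .z L K pt ps ci => (Nat.ble (Nat.add L 1) (Nat.pow 2 n) && (Nat.ble (Nat.add K 1) (Nat.pow 2 n) &&
      (dj L K && (sb pt K && (ob pt && mo ps L (Nat.xor K pt)))))) &&
      zc G L K (nm ps) (sp L) (sp K) (F.getD ci (99, 99, 0))
        (Nat.add ps.length (bif Nat.beq pt 0 then 0 else 1))
  | .r d P xs => (sb P (cb (Nat.sub (Nat.pow 2 n) 1)) &&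
      Nat.ble (deps.getD d (99, 0)).1 (Nat.add n 1)) &&
      sb (deps.getD d (99, 0)).2 (VL xs (ext n G P)) && swv (Nat.add n 1) xs
where
  /-- the swaps are admissible -/
  swv (n : Nat) : List (Nat × Nat) → Bool
  | [] => true
  | p :: ps => (dj p.2 (Nat.shiftLeft p.2 p.1) &&
      Nat.ble (Nat.add (Nat.shiftLeft p.2 p.1) 1) (Nat.pow 2 n)) && swv n ps

/-- the weights of the swapped vertices agree -/
def we (w d : Nat) : Nat → Nat → Bool
  | 0, m => Nat.beq m 0
  | f + 1, m => bif Nat.beq m 0 then true else
      Nat.beq (wt w (Nat.log2 m)) (wt w (Nat.add (Nat.log2 m) d)) &&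
      we w d f (Nat.xor m (Nat.pow 2 (Nat.log2 m)))

/-- the check of a swap -/
def swc (n G w : Nat) (p : Nat × Nat) : Bool :=
  dj p.2 (Nat.shiftLeft p.2 p.1) && (Nat.ble (Nat.add (Nat.shiftLeft p.2 p.1) 1) (Nat.pow 2 n) &&
  (we w p.1 20 p.2 && Nat.beq (VS p.1 p.2 G) G))

/-- the tree: the list of the branches of a node. A branch is either a node again (with the index
of its witness), or it is equivalent to an earlier branch. -/
inductive T where
  | n : T
  | s (w : Nat) (c r : T) : T
  | y (k j : Nat) (r : T) : T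

/-- a part of the definition of `en` -/
def en2 (k : Nat → Nat → Nat → Nat → List (Nat × Nat) → Bool) (E Y c t a : Nat) : Bool :=
  k a E (Nat.lor Y (Nat.xor t a)) c []

/-- a part of the definition of `en` -/
def en1 (ca : List (Nat × Nat)) (D : Nat)
    (k : Nat → Nat → Nat → Nat → List (Nat × Nat) → Bool) (E Y c t : Nat) : Bool :=
  en2 k E Y c t (Nat.land t (aff c D ca 0))

/-- enter a node with the required adjacencies `P` -/
def en (ca : List (Nat × Nat)) (D : Nat)
    (k : Nat → Nat → Nat → Nat → List (Nat × Nat) → Bool) (E Y c P : Nat) : Bool :=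
  dj P E && en1 ca D k E Y c (mn P Y)

/-- the check of an equivalent branch -/
def eq1 (E Y b : Nat) (p h : Nat × Nat) : Bool :=
  Nat.ble 1 h.1 && (sb (Nat.lor E h.1) (vs p.1 p.2 (Nat.lor E b)) && sb h.2 (vs p.1 p.2 Y))

/-- the entry of a packed table -/
def tb (tp w : Nat) : Nat := Nat.land (Nat.shiftRight tp (Nat.mul 64 w)) f64

/-- the check of the branches of a node. `a`: bits that are still to be treated; `E`: bits that are
not adjacencies; `Y`: bits that are; `c`: the cost; `h`: the earlier branches. -/
def go (tp ln : Nat) (sw : List (Nat × Nat)) (w : Nat) (ca : List (Nat × Nat)) (D : Nat) :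
    T → Nat → Nat → Nat → Nat → List (Nat × Nat) → Bool
  | .n, a, _, _, _, _ => Nat.beq a 0
  | .s i ch rs, a, E, Y, c, h =>
    bif Nat.beq a 0 then false else
      (Nat.ble (Nat.add i 1) ln &&
      en ca D (go tp ln sw w ca D ch) (Nat.lor E (Nat.pow 2 (Nat.log2 a))) Y
        (Nat.add c (cst w (Nat.log2 a))) (tb tp i)) &&
      go tp ln sw w ca D rs (Nat.xor a (Nat.pow 2 (Nat.log2 a))) E
        (Nat.lor Y (Nat.pow 2 (Nat.log2 a))) c ((Nat.pow 2 (Nat.log2 a), Y) :: h)
  | .y k j rs, a, E, Y, c, h =>
    bif Nat.beq a 0 then false else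
      eq1 E Y (Nat.pow 2 (Nat.log2 a)) (sw.getD j (0, 0)) (h.getD k (0, 0)) &&
      go tp ln sw w ca D rs (Nat.xor a (Nat.pow 2 (Nat.log2 a))) E
        (Nat.lor Y (Nat.pow 2 (Nat.log2 a))) c ((Nat.pow 2 (Nat.log2 a), Y) :: h)

/-- the packed table agrees with the witnesses -/
def ct (tp : Nat) (f : Wt → Bool) : List Wt → Nat → Bool
  | [], _ => true
  | x :: xs, i => f x && (Nat.beq (tb tp i) x.P && ct tp f xs (Nat.add i 1))

/-- a certificate that a configuration is impossible -/
structure En where
  w : Nat
  ca : List (Nat × Nat)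
  D : Nat
  tp : Nat
  tab : List Wt
  sw : List (Nat × Nat)
  w0 : Nat
  t : T

/-- the first part of the check -/
def chk0 (n G : Nat) (e : En) : Bool :=
  (Nat.ble n 19 && (Nat.ble 1 e.D && (Nat.beq (tw e.w n) e.D &&
    (cc e.w e.ca 0 (cb (Nat.sub (Nat.pow 2 n) 1)) 0 &&
    sb G (Nat.mul (cb (Nat.sub (Nat.pow 2 n) 1))
      (Nat.land m64 (Nat.sub (Nat.pow 2 (Nat.mul 64 n)) 1)))))))

/-- the complete check -/
def chk (F : List (Nat × Nat × Nat)) (deps : List (Nat × Nat)) (n G : Nat) (e : En) : Bool :=
  chk0 n G e && (ct e.tp (wc n G F deps) e.tab 0 &&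
    (e.sw.all (swc n G e.w) &&
    (Nat.ble (Nat.add e.w0 1) e.tab.length &&
    en e.ca e.D (go e.tp e.tab.length e.sw e.w e.ca e.D e.t) 0 0 0 (tb e.tp e.w0))))

end Pool.Agent.Lib.MP_a05470_co.T5
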