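import Pool.Agent.Lib.MP_a05470_co.T5.Cfg

/-!
# Soundness of the checker
-/

set_option autoImplicit false

namespace Pool.Agent.Lib.MP_a05470_co.T5

open Finset Classical Pool.Agent.Lib.MP_a05470_co.Frontier

variable {W : Type} {Gr Gb : SimpleGraph W}

theorem nat_add (a b : ℕ) : Nat.add a b = a + b := rfl

theorem nat_mul (a b : ℕ) : Nat.mul a b = a * b := rfl

theorem nat_sub (a b : ℕ) : Nat.sub a b = a - b := rfl

theorem nat_pow (a b : ℕ) : Nat.pow a b = a ^ b := rfl

/-- a checked swap is a swap -/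
theorem sw_of {d m n : ℕ} (h1 : dj m (Nat.shiftLeft m d) = true)
    (h2 : Nat.ble (Nat.add (Nat.shiftLeft m d) 1) (Nat.pow 2 n) = true) : Sw d m n := by
  rw [dj_iff] at h1
  rw [ble_iff, nat_add, nat_pow] at h2
  have h3 : ∀ q, m.testBit q = true → (Nat.shiftLeft m d).testBit (q + d) = true := by
    intro q hq
    rw [shl_testBit, Nat.add_sub_cancel, hq]
    simp
  constructor
  · intro q hq
    by_contra hc
    have hc' : m.testBit (q + d) = true := by simpa using hc
    have := h1 _ hc'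
    rw [h3 q hq] at this
    exact absurd this (by simp)
  · intro q hq
    by_contra hc
    push Not at hc
    have h4 := h3 q hq
    rw [Nat.testBit_lt_two_pow (lt_of_lt_of_le (by omega : Nat.shiftLeft m d < 2 ^ n)
      (Nat.pow_le_pow_right (by norm_num) hc))] at h4
    exact absurd h4 (by simp)

theorem Has.swap {n G d m : ℕ} {φ : ℕ → W} (h : Has Gr Gb n G φ) (hs : Sw d m n) (hn : n ≤ 20) :
    Has Gr Gb n (VS d m G) (fun i => φ (ta d m i)) := by
  intro i hi j hj hij
  have h1 := hs.VS_testBit hn G (i := i) (j := j) (a := 0) (by omega) (by omega) (by norm_num)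
  have h2 := hs.VS_testBit hn G (i := i) (j := j) (a := 1) (by omega) (by omega) (by norm_num)
  rw [Nat.mul_zero, Nat.zero_add, Nat.zero_add] at h1
  rw [Nat.mul_one, ← Nat.add_assoc, ← Nat.add_assoc] at h2
  have h3 := h (ta d m i) (hs.ta_lt hi) (ta d m j) (hs.ta_lt hj)
    (fun e => hij (hs.ta_inj e))
  constructor
  · intro hb
    rw [h1] at hb
    exact h3.1 hb
  · intro hb
    rw [h2] at hb
    exact h3.2 hb

theorem Has.swaps {n : ℕ} (hn : n ≤ 20) (xs : List (ℕ × ℕ)) :
    ∀ {G : ℕ} {φ : ℕ → W}, Has Gr Gb n G φ → wc.swv n xs = true →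
      ∃ ψ : ℕ → W, Has Gr Gb n (VL xs G) ψ := by
  induction xs with
  | nil => intro G φ h _; exact ⟨φ, h⟩
  | cons p ps ih =>
    intro G φ h hx
    have h1 : wc.swv n (p :: ps) = ((dj p.2 (Nat.shiftLeft p.2 p.1) &&
      Nat.ble (Nat.add (Nat.shiftLeft p.2 p.1) 1) (Nat.pow 2 n)) && wc.swv n ps) := rfl
    rw [h1, Bool.and_eq_true, Bool.and_eq_true] at hx
    exact ih (h.swap (sw_of hx.1.1 hx.1.2) hn) hx.2

theorem ext_testBit {n G P : ℕ} (q : ℕ) : (ext n G P).testBit q =
    ((G.testBit q || ((decide (64 * n ≤ q) && P.testBit (q - 64 * n)) ||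
      decide (65 * n + 32 = q))) || ((decide (n ≤ q) && (sp (Nat.land P f32)).testBit (q - n)) ||
      (decide (32 + n ≤ q) && (sp (Nat.shiftRight P 32)).testBit (q - (32 + n))))) := by
  unfold ext
  rw [lor_testBit, lor_testBit, lor_testBit, lor_testBit, shl_testBit, shl_testBit, shl_testBit,
    pow_testBit]
  rfl

theorem f32_testBit (q : ℕ) : f32.testBit q = decide (q < 32) := by
  rw [f32_eq, Nat.testBit_two_pow_sub_one]

/-- the adjacencies are in the range -/
def Rg (n P : ℕ) : Prop := ∀ k, P.testBit k = true → ∃ a < 2, ∃ j < n, k = 32 * a + j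

theorem rg_full {n : ℕ} (k : ℕ) :
    (cb (Nat.sub (Nat.pow 2 n) 1)).testBit k = true ↔ ∃ a < 2, ∃ j < n, k = 32 * a + j := by
  rw [cb_testBit, nat_sub, nat_pow, Nat.testBit_two_pow_sub_one, Nat.testBit_two_pow_sub_one]
  rw [Bool.or_eq_true, Bool.and_eq_true, decide_eq_true_eq, decide_eq_true_eq, decide_eq_true_eq]
  constructor
  · rintro (h | ⟨h, h'⟩)
    · exact ⟨0, by norm_num, k, h, by omega⟩
    · exact ⟨1, by norm_num, k - 32, h', by omega⟩
  · rintro ⟨a, ha, j, hj, rfl⟩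
    have : a = 0 ∨ a = 1 := by omega
    rcases this with rfl | rfl
    · left
      omega
    · right
      omega

theorem Rg.lt {n P : ℕ} (h : Rg n P) (hn : n ≤ 19) : P < 2 ^ 51 := by
  apply Nat.lt_pow_two_of_testBit
  intro i hi
  by_contra hc
  obtain ⟨a, ha, j, hj, hk⟩ := h i (by simpa using hc)
  omega

theorem Has.ext {n G P : ℕ} (hn : n ≤ 19) {φ : ℕ → W} (h : Has Gr Gb n G φ) {u : W}
    (hu : Att Gr Gb n φ u P) (hP : Rg n P) (hG : ∀ i j, G.testBit (64 * i + j) = true → j < 64 →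
      i < n ∧ j < 32 + n ∧ (j < n ∨ 32 ≤ j)) :
    Has Gr Gb (n + 1) (ext n G P) (fun i => if i = n then u else φ i) := by
  have hlt := hP.lt hn
  have hP1 : Nat.land P f32 < 2 ^ 63 := by
    apply Nat.lt_pow_two_of_testBit
    intro i hi
    rw [land_testBit, Nat.testBit_lt_two_pow (lt_of_lt_of_le hlt (Nat.pow_le_pow_right (by norm_num)
      (by omega)))]
    rfl
  have hP2 : Nat.shiftRight P 32 < 2 ^ 63 := by
    apply Nat.lt_pow_two_of_testBit
    intro i hi
    rw [shr_testBit, Nat.testBit_lt_two_pow (lt_of_lt_of_le hlt (Nat.pow_le_pow_right (by norm_num)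
      (by omega)))]
  -- the bits of the extension
  have key : ∀ i ≤ n, ∀ j ≤ n, i ≠ j → ∀ a < 2, (T5.ext n G P).testBit (64 * i + (32 * a + j)) = true →
      (i < n ∧ j < n ∧ G.testBit (64 * i + (32 * a + j)) = true) ∨
      (i = n ∧ j < n ∧ P.testBit (32 * a + j) = true) ∨
      (i < n ∧ j = n ∧ P.testBit (32 * a + i) = true) := by
    intro i hi j hj hij a ha hb
    rw [ext_testBit] at hb
    rw [Bool.or_eq_true, Bool.or_eq_true, Bool.or_eq_true, Bool.or_eq_true, Bool.and_eq_true,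
      Bool.and_eq_true, Bool.and_eq_true, decide_eq_true_eq, decide_eq_true_eq, decide_eq_true_eq,
      decide_eq_true_eq] at hb
    rcases hb with (hb | ⟨hb1, hb2⟩ | hb) | ⟨hb1, hb2⟩ | ⟨hb1, hb2⟩
    · have h1 := hG i (32 * a + j) hb (by omega)
      left
      refine ⟨h1.1, ?_, hb⟩
      have : a = 0 ∨ a = 1 := by omega
      rcases this with rfl | rfl <;> omega
    · right; left
      have h1 : i = n := by
        obtain ⟨a', ha', j', hj', hk⟩ := hP _ hb2
        omega
      subst h1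
      have h2 : 64 * i + (32 * a + j) - 64 * i = 32 * a + j := by omega
      rw [h2] at hb2
      exact ⟨rfl, by omega, hb2⟩
    · exfalso
      omega
    · rw [sp_testBit hP1, Bool.and_eq_true, Bool.and_eq_true, decide_eq_true_eq,
        decide_eq_true_eq, land_testBit, Bool.and_eq_true, f32_testBit, decide_eq_true_eq] at hb2
      obtain ⟨⟨h1, h2⟩, h3, h4⟩ := hb2
      right; right
      obtain ⟨a', ha', j', hj', hk⟩ := hP _ h3
      have h5 : a' = 0 := by omega
      subst h5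
      have h6 : a = 0 ∧ j = n := by omega
      obtain ⟨rfl, rfl⟩ := h6
      have h7 : (64 * i + (32 * 0 + j) - j) / 64 = i := by omega
      rw [h7] at h3
      refine ⟨by omega, rfl, ?_⟩
      rw [Nat.mul_zero, Nat.zero_add]
      exact h3
    · rw [sp_testBit hP2, Bool.and_eq_true, Bool.and_eq_true, decide_eq_true_eq,
        decide_eq_true_eq, shr_testBit] at hb2
      obtain ⟨⟨h1, h2⟩, h3⟩ := hb2
      right; right
      obtain ⟨a', ha', j', hj', hk⟩ := hP _ h3
      have h6 : a = 1 ∧ j = n := by omega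
      obtain ⟨rfl, rfl⟩ := h6
      have h7 : (64 * i + (32 * 1 + j) - (32 + j)) / 64 = i := by omega
      rw [h7] at h3
      refine ⟨by omega, rfl, ?_⟩
      rw [Nat.mul_one]
      exact h3
  intro i hi j hj hij
  have hk := key i (by omega) j (by omega) hij
  constructor
  · intro hb
    have hk0 := hk 0 (by norm_num) (by rw [Nat.mul_zero, Nat.zero_add]; exact hb)
    rw [Nat.mul_zero, Nat.zero_add, Nat.zero_add] at hk0
    dsimp only
    rcases hk0 with ⟨h1, h2, h3⟩ | ⟨h1, h2, h3⟩ | ⟨h1, h2, h3⟩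
    · rw [if_neg (by omega), if_neg (by omega)]
      exact (h i h1 j h2 hij).1 h3
    · rw [if_pos h1, if_neg (by omega)]
      exact (hu j h2).1 h3
    · rw [if_neg (by omega), if_pos h2]
      exact ((hu i h1).1 h3).symm
  · intro hb
    have hk1 := hk 1 (by norm_num) (by rw [Nat.mul_one, ← Nat.add_assoc]; exact hb)
    rw [Nat.mul_one, ← Nat.add_assoc] at hk1
    dsimp only
    rcases hk1 with ⟨h1, h2, h3⟩ | ⟨h1, h2, h3⟩ | ⟨h1, h2, h3⟩
    · rw [if_neg (by omega), if_neg (by omega)]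
      exact (h i h1 j h2 hij).2 h3
    · rw [if_pos h1, if_neg (by omega)]
      exact (hu j h2).2 h3
    · rw [if_neg (by omega), if_pos h2]
      exact ((hu i h1).2 h3).symm

theorem Has.mono {n n' G G' : ℕ} {φ : ℕ → W} (h : Has Gr Gb n G φ) (hn : n' ≤ n)
    (hG : sb G' G = true) : Has Gr Gb n' G' φ := by
  rw [sb_iff] at hG
  intro i hi j hj hij
  have h1 := h i (by omega) j (by omega) hij
  exact ⟨fun hb => h1.1 (hG _ hb), fun hb => h1.2 (hG _ hb)⟩

/-- the configurations of the list do not occur -/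
def NoC (Gr Gb : SimpleGraph W) (p : ℕ × ℕ) : Prop := ∀ φ : ℕ → W, ¬ Has Gr Gb p.1 p.2 φ

theorem r_sound {n G : ℕ} (hn : n ≤ 19) {φ : ℕ → W} (hG : Has Gr Gb n G φ)
    (hGr : ∀ i j, G.testBit (64 * i + j) = true → j < 64 → i < n ∧ j < 32 + n ∧ (j < n ∨ 32 ≤ j))
    {F : List (ℕ × ℕ × ℕ)} {deps : List (ℕ × ℕ)} (hd : ∀ p ∈ deps, NoC Gr Gb p) {d P : ℕ}
    {xs : List (ℕ × ℕ)} (h : wc n G F deps (.r d P xs) = true) {u : W}
    (hu : Att Gr Gb n φ u P) : False := by
  have h1 : wc n G F deps (.r d P xs) = ((sb P (cb (Nat.sub (Nat.pow 2 n) 1)) &&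
      Nat.ble (deps.getD d (99, 0)).1 (Nat.add n 1)) &&
      sb (deps.getD d (99, 0)).2 (VL xs (ext n G P)) && wc.swv (Nat.add n 1) xs) := rfl
  rw [h1, Bool.and_eq_true, Bool.and_eq_true, Bool.and_eq_true, ble_iff, nat_add] at h
  obtain ⟨⟨⟨h2, h3⟩, h4⟩, h5⟩ := h
  have hP : Rg n P := by
    intro k hk
    rw [sb_iff] at h2
    exact (rg_full k).1 (h2 k hk)
  have h6 := hG.ext hn hu hP hGr
  obtain ⟨ψ, h7⟩ := Has.swaps (by omega) xs h6 h5
  have h8 := h7.mono h3 h4
  by_cases hlt : d < deps.length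
  · have h9 : deps.getD d (99, 0) ∈ deps := by
      rw [List.getD_eq_getElem _ _ hlt]
      exact List.getElem_mem hlt
    exact hd _ h9 ψ h8
  · rw [List.getD_eq_default _ _ (by omega)] at h3
    simp only at h3
    omega

end Pool.Agent.Lib.MP_a05470_co.T5
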