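import Pool.Agent.Lib.MP_a05470_co.T5.Sound

/-!
# Soundness of the checker: the tree
-/

set_option autoImplicit false

namespace Pool.Agent.Lib.MP_a05470_co.T5

open Finset Classical Pool.Agent.Lib.MP_a05470_co.Frontier

variable {W : Type} {Gr Gb : SimpleGraph W}

/-- adjacency of `u` to the vertex `j` in the colour `a` -/
def Aj (Gr Gb : SimpleGraph W) (φ : ℕ → W) (u : W) (a j : ℕ) : Prop :=
  if a = 0 then Gr.Adj u (φ j) else Gb.Adj u (φ j)

/-- `u` is not adjacent in the sense of `E` and adjacent in the sense of `Y` -/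
def St (Gr Gb : SimpleGraph W) (n : ℕ) (φ : ℕ → W) (u : W) (E Y : ℕ) : Prop :=
  ∀ a < 2, ∀ j < n, (E.testBit (32 * a + j) = true → ¬ Aj Gr Gb φ u a j) ∧
    (Y.testBit (32 * a + j) = true → Aj Gr Gb φ u a j)

/-- the total weight of the non-adjacencies -/
noncomputable def tot (Gr Gb : SimpleGraph W) (w n : ℕ) (φ : ℕ → W) (u : W) : ℕ :=
  ∑ a ∈ range 2, ∑ j ∈ range n, if Aj Gr Gb φ u a j then 0 else cst w (32 * a + j)

/-- the total weight of the bits of `E` -/
def cE (w n E : ℕ) : ℕ :=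
  ∑ a ∈ range 2, ∑ j ∈ range n, if E.testBit (32 * a + j) = true then cst w (32 * a + j) else 0

theorem cE_le {w n E : ℕ} {φ : ℕ → W} {u : W}
    (h : ∀ a < 2, ∀ j < n, E.testBit (32 * a + j) = true → ¬ Aj Gr Gb φ u a j) :
    cE w n E ≤ tot Gr Gb w n φ u := by
  unfold cE tot
  apply Finset.sum_le_sum
  intro a ha
  apply Finset.sum_le_sum
  intro j hj
  rw [mem_range] at ha hj
  by_cases h1 : E.testBit (32 * a + j) = true
  · rw [if_pos h1, if_neg (h a ha j hj h1)]
  · rw [if_neg h1]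
    exact Nat.zero_le _

theorem cE_insert {w n E a j : ℕ} (hn : n ≤ 32) (ha : a < 2) (hj : j < n)
    (hE : E.testBit (32 * a + j) = false) :
    cE w n (Nat.lor E (Nat.pow 2 (32 * a + j))) = cE w n E + cst w (32 * a + j) := by
  have h1 : cE w n (Nat.lor E (Nat.pow 2 (32 * a + j))) = cE w n E +
      ∑ a' ∈ range 2, ∑ j' ∈ range n, if a' = a ∧ j' = j then cst w (32 * a + j) else 0 := by
    unfold cE
    rw [← Finset.sum_add_distrib]
    apply Finset.sum_congr rfl
    intro a' ha'
    rw [← Finset.sum_add_distrib]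
    apply Finset.sum_congr rfl
    intro j' hj'
    rw [mem_range] at ha' hj'
    rw [lor_testBit, pow_testBit]
    by_cases h2 : a' = a ∧ j' = j
    · obtain ⟨rfl, rfl⟩ := h2
      rw [hE]
      simp
    · have h3 : ¬ (32 * a + j = 32 * a' + j') := by omega
      rw [if_neg h2]
      simp [h3]
  rw [h1]
  congr 1
  rw [Finset.sum_eq_single a, Finset.sum_eq_single j]
  · simp
  · intro b _ hb
    rw [if_neg]
    rintro ⟨_, h⟩
    exact hb h
  · intro h
    rw [mem_range] at h
    exact absurd hj h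
  · intro b _ hb
    apply Finset.sum_eq_zero
    intro c _
    rw [if_neg]
    rintro ⟨h, _⟩
    exact hb h
  · intro h
    rw [mem_range] at h
    exact absurd ha h

/-- the states that are impossible -/
def Bad (Gr Gb : SimpleGraph W) (w D n G E Y : ℕ) : Prop :=
  ∀ (φ : ℕ → W) (u : W), Has Gr Gb n G φ → tot Gr Gb w n φ u < D → St Gr Gb n φ u E Y → False

/-- the adjacencies `P` are impossible -/
def NoP (Gr Gb : SimpleGraph W) (n G P : ℕ) : Prop :=
  ∀ (φ : ℕ → W) (u : W), Has Gr Gb n G φ → Att Gr Gb n φ u P → False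

theorem St.att {n : ℕ} {φ : ℕ → W} {u : W} {E Y P : ℕ} (h : St Gr Gb n φ u E Y)
    (hP : ∀ k, P.testBit k = true → Y.testBit k = true) : Att Gr Gb n φ u P := by
  intro j hj
  constructor
  · intro hb
    have h1 := (h 0 (by norm_num) j hj).2 (by
      rw [Nat.mul_zero, Nat.zero_add]
      exact hP _ hb)
    unfold Aj at h1
    rwa [if_pos rfl] at h1
  · intro hb
    have h1 := (h 1 (by norm_num) j hj).2 (by
      rw [Nat.mul_one]
      exact hP _ hb)
    unfold Aj at h1
    rwa [if_neg (by norm_num)] at h1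

/-- an admissible symmetry -/
structure Sy (w n G : ℕ) (p : ℕ × ℕ) : Prop where
  sw : Sw p.1 p.2 n
  wt : ∀ i, wt w (ta p.1 p.2 i) = wt w i
  eq : VS p.1 p.2 G = G

theorem ta_zero (i : ℕ) : ta 0 0 i = i := by
  unfold ta
  simp

theorem eq_of_bits {w n G : ℕ} (h : VS 0 0 G = G) : Sy w n G (0, 0) :=
  ⟨⟨fun q hq => by simp at hq, fun q hq => by simp at hq⟩, fun i => by rw [ta_zero], h⟩

theorem VS_zero (G : ℕ) : VS 0 0 G = G := by
  apply Nat.eq_of_testBit_eq
  intro i
  have h1 : Nat.mul (sp 0) f64 = 0 := by decide +kernel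
  have h2 : Nat.mul (cb 0) m64 = 0 := by decide +kernel
  have h3 : ∀ x q, (ds 0 0 x).testBit q = x.testBit q := by
    intro x q
    rw [ds_testBit (by intro q hq; simp at hq)]
    simp
  unfold VS
  rw [h1, h2, nat_mul, Nat.mul_zero, h3, h3]

theorem log2_mem {a : ℕ} (ha : a ≠ 0) : a.testBit (Nat.log2 a) = true := by
  rw [Nat.log2_eq_log_two]
  by_contra hc
  have hc' : a.testBit (Nat.log 2 a) = false := by simpa using hc
  have h1 : a < 2 ^ Nat.log 2 a := by
    apply Nat.lt_pow_two_of_testBit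
    intro i hi
    rcases Nat.lt_or_ge (Nat.log 2 a) i with h | h
    · exact Nat.testBit_lt_two_pow (lt_of_lt_of_le (Nat.lt_pow_succ_log_self (by norm_num) a)
        (Nat.pow_le_pow_right (by norm_num) h))
    · have : i = Nat.log 2 a := by omega
      rw [this]
      exact hc'
  have h2 := Nat.pow_log_le_self 2 ha
  omega

theorem we_sound {w d : ℕ} (f : ℕ) : ∀ {m : ℕ}, we w d f m = true → ∀ i, m.testBit i = true →
    wt w i = wt w (i + d) := by
  induction f with
  | zero =>
    intro m h i hi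
    have h1 : we w d 0 m = Nat.beq m 0 := rfl
    rw [h1, beq_iff] at h
    rw [h, Nat.zero_testBit] at hi
    exact absurd hi (by simp)
  | succ f ih =>
    intro m h i hi
    have h1 : we w d (f + 1) m = (bif Nat.beq m 0 then true else
      Nat.beq (wt w (Nat.log2 m)) (wt w (Nat.add (Nat.log2 m) d)) &&
      we w d f (Nat.xor m (Nat.pow 2 (Nat.log2 m)))) := rfl
    rw [h1] at h
    have hm : m ≠ 0 := by
      rintro rfl
      rw [Nat.zero_testBit] at hi
      exact absurd hi (by simp)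
    have hb : Nat.beq m 0 = false := by
      by_contra hc
      exact hm (beq_iff.1 (by simpa using hc))
    rw [hb, cond_false, Bool.and_eq_true, beq_iff, nat_add] at h
    by_cases hi2 : Nat.log2 m = i
    · rw [← hi2]
      exact h.1
    · apply ih h.2
      rw [xor_testBit, pow_testBit, hi]
      simp [hi2]

theorem sy_of {w n G : ℕ} {p : ℕ × ℕ} (h : swc n G w p = true) : Sy w n G p := by
  unfold swc at h
  rw [Bool.and_eq_true, Bool.and_eq_true, Bool.and_eq_true, beq_iff] at h
  obtain ⟨h1, h2, h3, h4⟩ := h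
  have h5 := sw_of h1 h2
  refine ⟨h5, ?_, h4⟩
  have h6 := we_sound 20 h3
  intro i
  unfold ta
  split_ifs with h7 h8
  · exact (h6 i h7).symm
  · have h9 := h6 _ h8.2
    rw [h9]
    congr 1
    omega
  · rfl

theorem Sy.cst {w n G : ℕ} {p : ℕ × ℕ} (h : Sy w n G p) {a j : ℕ} (ha : a < 2) (hj : j < 32)
    (hj' : ta p.1 p.2 j < 32) : cst w (32 * a + ta p.1 p.2 j) = cst w (32 * a + j) := by
  have h1 : a = 0 ∨ a = 1 := by omega
  unfold T5.cst
  rcases h1 with rfl | rfl
  · have e1 : Nat.ble 32 (32 * 0 + ta p.1 p.2 j) = false := by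
      by_contra hc
      have := ble_iff.1 (by simpa using hc : Nat.ble 32 (32 * 0 + ta p.1 p.2 j) = true)
      omega
    have e2 : Nat.ble 32 (32 * 0 + j) = false := by
      by_contra hc
      have := ble_iff.1 (by simpa using hc : Nat.ble 32 (32 * 0 + j) = true)
      omega
    rw [e1, e2, cond_false, cond_false, Nat.mul_zero, Nat.zero_add, Nat.zero_add, h.wt]
  · have e1 : Nat.ble 32 (32 * 1 + ta p.1 p.2 j) = true := ble_iff.2 (by omega)
    have e2 : Nat.ble 32 (32 * 1 + j) = true := ble_iff.2 (by omega)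
    rw [e1, e2, cond_true, cond_true]
    have e3 : Nat.sub (32 * 1 + ta p.1 p.2 j) 32 = ta p.1 p.2 j := by
      rw [nat_sub]
      omega
    have e4 : Nat.sub (32 * 1 + j) 32 = j := by
      rw [nat_sub]
      omega
    rw [e3, e4, h.wt]

theorem Sy.tot {w n G : ℕ} {p : ℕ × ℕ} (h : Sy w n G p) (hn : n ≤ 20) (φ : ℕ → W) (u : W) :
    tot Gr Gb w n (fun i => φ (ta p.1 p.2 i)) u = tot Gr Gb w n φ u := by
  unfold T5.tot
  apply Finset.sum_congr rfl
  intro a ha
  rw [mem_range] at ha
  have h1 : ∀ j ∈ range n, (if Aj Gr Gb (fun i => φ (ta p.1 p.2 i)) u a j then 0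
      else T5.cst w (32 * a + j)) = (fun i => if Aj Gr Gb φ u a i then 0 else
        T5.cst w (32 * a + i)) (ta p.1 p.2 j) := by
    intro j hj
    rw [mem_range] at hj
    have h2 := h.sw.ta_lt hj
    dsimp only
    rw [h.cst ha (by omega) (by omega)]
    rfl
  rw [Finset.sum_congr rfl h1]
  apply Finset.sum_nbij' (fun i => ta p.1 p.2 i) (fun i => ta p.1 p.2 i)
  · intro j hj
    rw [mem_range] at hj ⊢
    exact h.sw.ta_lt hj
  · intro j hj
    rw [mem_range] at hj ⊢
    exact h.sw.ta_lt hj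
  · intro j _
    exact h.sw.ta_ta j
  · intro j _
    exact h.sw.ta_ta j
  · intro j _
    rfl

/-- the transport of an impossible state along a symmetry -/
theorem Sy.bad {w D n G : ℕ} {p : ℕ × ℕ} (h : Sy w n G p) (hn : n ≤ 20) {E Y b : ℕ}
    {q : ℕ × ℕ} (hq : Bad Gr Gb w D n G (Nat.lor E q.1) q.2) (he : eq1 E Y b p q = true) :
    Bad Gr Gb w D n G (Nat.lor E b) Y := by
  unfold eq1 at he
  rw [Bool.and_eq_true, Bool.and_eq_true, sb_iff, sb_iff] at he
  obtain ⟨_, h1, h2⟩ := he
  intro φ u hφ ht hs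
  apply hq (fun i => φ (ta p.1 p.2 i)) u
  · have h3 := hφ.swap h.sw hn
    rw [h.eq] at h3
    exact h3
  · rw [h.tot hn]
    exact ht
  · intro a ha j hj
    have h3 := h.sw.ta_lt hj
    have h4 := hs a ha (ta p.1 p.2 j) h3
    constructor
    · intro hb
      have h5 := h1 _ hb
      rw [h.sw.vs_testBit hn _ (by omega) ha] at h5
      exact h4.1 h5
    · intro hb
      have h5 := h2 _ hb
      rw [h.sw.vs_testBit hn _ (by omega) ha] at h5
      exact h4.2 h5

end Pool.Agent.Lib.MP_a05470_co.T5
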